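import Pool.Agent.Work.MP_065151_ic.Interface

/-! Block ABS (helper54). -/

set_option autoImplicit false

open Topology Metric Filter Set

namespace ICP

theorem p_ABS : Stmt_ABS := by
  intro Y S E A hYo hYc hS hne hE hEb hA hAb hint
  obtain ⟨M₁', h₁'⟩ := hEb
  obtain ⟨M₂', h₂'⟩ := hAb
  obtain ⟨M₁, hM₁, h₁⟩ : ∃ M₁ : ℝ, 0 ≤ M₁ ∧ ∀ z ∈ Y ∩ S, |E z| ≤ M₁ :=
    ⟨|M₁'|, abs_nonneg _, fun z hz => (h₁' z hz).trans (le_abs_self _)⟩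
  obtain ⟨M₂, hM₂, h₂⟩ : ∃ M₂ : ℝ, 0 ≤ M₂ ∧ ∀ z ∈ Y \ S, |A z| ≤ M₂ :=
    ⟨|M₂'|, abs_nonneg _, fun z hz => (h₂' z hz).trans (le_abs_self _)⟩
  have hYS : IsOpen (Y \ S) := hYo.sdiff hS
  have hloc : ∀ z ∈ Y \ S, ∃ r > 0, ball z r ⊆ Y \ S ∧
      ∀ w ∈ ball z r, E w - A w = E z - A z := by
    intro z hz
    obtain ⟨r, hr, hb⟩ := Metric.isOpen_iff.1 hYS z hz
    refine ⟨r, hr, hb, ?_⟩
    obtain ⟨n, hn⟩ := lcd (convex_ball z r).isPreconnected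
      (hE.mono (hb.trans diff_subset)) (hA.mono hb) (fun w hw => hint w (hb hw))
    intro w hw
    rw [hn w hw, hn z (mem_ball_self hr)]
  set C : ℝ := M₁ + 1 + M₂ with hC
  let W : Set ℂ := {z | z ∈ Y \ S ∧ C < |E z - A z|}
  let U : Set ℂ := {z | z ∈ Y \ S ∧ |E z - A z| ≤ C} ∪ {z | z ∈ Y ∧ |E z| < M₁ + 1}
  have hWo : IsOpen W := by
    rw [Metric.isOpen_iff]
    rintro z ⟨hz, hz2⟩
    obtain ⟨r, hr, hb, hc⟩ := hloc z hz
    refine ⟨r, hr, fun w hw => ⟨hb hw, ?_⟩⟩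
    rw [hc w hw]
    exact hz2
  have hUo : IsOpen U := by
    refine IsOpen.union ?_ ?_
    · rw [Metric.isOpen_iff]
      rintro z ⟨hz, hz2⟩
      obtain ⟨r, hr, hb, hc⟩ := hloc z hz
      refine ⟨r, hr, fun w hw => ⟨hb hw, ?_⟩⟩
      rw [hc w hw]
      exact hz2
    · have h1 := hE.abs.isOpen_inter_preimage hYo (isOpen_Iio (a := M₁ + 1))
      exact h1
  have hcov : Y ⊆ W ∪ U := by
    intro z hz
    by_cases hzS : z ∈ S
    · right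
      right
      exact ⟨hz, lt_of_le_of_lt (h₁ z ⟨hz, hzS⟩) (by linarith)⟩
    · rcases lt_or_ge C |E z - A z| with h | h
      · exact Or.inl ⟨⟨hz, hzS⟩, h⟩
      · exact Or.inr (Or.inl ⟨⟨hz, hzS⟩, h⟩)
  have hUne : (Y ∩ U).Nonempty := by
    obtain ⟨z, hz, hzS⟩ := hne
    exact ⟨z, hz, Or.inr ⟨hz, lt_of_le_of_lt (h₁ z ⟨hz, hzS⟩) (by linarith)⟩⟩
  have hWe : ∀ z ∈ Y, z ∉ W := by
    intro z hz hzW
    obtain ⟨w, -, ⟨hwYS, hw1⟩, hw2⟩ := hYc W U hWo hUo hcov ⟨z, hz, hzW⟩ hUne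
    rcases hw2 with hw2 | hw2
    · exact absurd hw2.2 (not_le.2 hw1)
    · have h3 := abs_sub (E w) (A w)
      have h4 := h₂ w hwYS
      have h5 := hw2.2
      linarith
  refine ⟨C + M₂, fun z hz => ?_⟩
  by_cases hzS : z ∈ S
  · have := h₁ z ⟨hz, hzS⟩
    linarith
  · have h3 : |E z - A z| ≤ C := by
      by_contra h
      exact hWe z hz ⟨⟨hz, hzS⟩, not_le.1 h⟩
    have h4 := h₂ z ⟨hz, hzS⟩
    have h5 : |E z| ≤ |E z - A z| + |A z| := by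
      have := abs_add_le (E z - A z) (A z)
      rwa [sub_add_cancel] at this
    linarith

end ICP
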