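import Pool.Agent.Work.MP_065151_ic.B_ACC

/-!
# Block AC2 (typed by helper41): the argument of `(z - f ζ') / (z - ζ)` is bounded
-/

set_option autoImplicit false

open Topology Metric Filter Set

namespace ICP

open R4C (f K Bot)

lemma AC2_f_sub (c z u : ℂ) : f c z - f c u = (z - u) * (z - -u) := by
  unfold R4C.f
  ring

theorem AC2_L (hEIN : Stmt_EIN) {c : ℂ} {H L : Set ℂ} {x y : ℂ} {E : ℂ → ℝ} (hH : IsCompact H)
    (hE : PL H x y E) (hL : IsClosed L) (hLZ : L ⊆ (f c ⁻¹' H)ᶜ) :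
    ∃ M : ℝ, ∀ z ∈ L, |E (f c z)| ≤ M := by
  obtain ⟨R, M, hRM⟩ := hEIN H x y E hH hE
  have hK : IsCompact (f c ⁻¹' closedBall (0 : ℂ) R ∩ L) :=
    (HH.preimage_compact c (isCompact_closedBall 0 R)).inter_right hL
  have hc : ContinuousOn (fun z => E (f c z)) (f c ⁻¹' closedBall (0 : ℂ) R ∩ L) :=
    hE.cont.comp (HH.f_cont c).continuousOn fun z hz => hLZ hz.2
  obtain ⟨M', hM'⟩ := hK.exists_bound_of_continuousOn hc
  refine ⟨max M M', fun z hz => ?_⟩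
  rcases le_or_gt R ‖f c z‖ with h | h
  · exact (hRM _ h).2.trans (le_max_left _ _)
  · refine (hM' z ⟨?_, hz⟩).trans (le_max_right _ _)
    rw [mem_preimage, mem_closedBall_zero_iff]
    exact h.le

theorem AC2_seg (hSGP : Stmt_SGP) {c : ℂ} {H : Set ℂ} {ζ ζ' : ℂ} {E : ℂ → ℝ}
    (hE : PL H (f c ζ') ζ E) (hζ : ζ ∈ H) (hζ' : ζ' ∈ f c ⁻¹' H) (ζ₀ p : ℂ)
    (h0 : ζ₀ ∈ f c ⁻¹' H)
    (hseg : ∀ s : ℝ, 0 < s → s ≤ 1 → ζ₀ + s * (p - ζ₀) ∉ f c ⁻¹' H) :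
    ∃ M : ℝ, ∀ z ∈ (fun s : ℝ => ζ₀ + s * (p - ζ₀)) '' Icc 0 1, z ∉ f c ⁻¹' H →
      |E (f c z)| ≤ M := by
  obtain ⟨y, hy⟩ := HH.f_surj c ζ
  have hv : p - ζ₀ ≠ 0 := by
    intro h
    apply hseg 1 one_pos le_rfl
    rw [h, mul_zero, add_zero]
    exact h0
  have hcm : Continuous fun s : ℝ => ζ₀ + (s : ℂ) * (p - ζ₀) :=
    continuous_const.add (Complex.continuous_ofReal.mul continuous_const)
  have hce : ContinuousOn (fun s : ℝ => E (f c (ζ₀ + s * (p - ζ₀)))) (Ioc 0 1) :=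
    hE.cont.comp ((HH.f_cont c).comp hcm).continuousOn fun s hs => hseg s hs.1 hs.2
  have hneg : ∀ u : ℂ, u ∈ f c ⁻¹' H → -u ∈ f c ⁻¹' H := by
    intro u hu
    rw [mem_preimage, HH.f_neg]
    exact hu
  have hyH : y ∈ f c ⁻¹' H := by
    rw [mem_preimage, hy]
    exact hζ
  have hne : ∀ z u : ℂ, z ∉ f c ⁻¹' H → u ∈ f c ⁻¹' H → z - u ≠ 0 := by
    intro z u hz hu h
    rw [sub_eq_zero] at h
    exact hz (h ▸ hu)
  obtain ⟨M, hM⟩ := hSGP ζ₀ (p - ζ₀) ζ' (-ζ') y (-y)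
    (fun s : ℝ => E (f c (ζ₀ + s * (p - ζ₀)))) hv hce (by
    intro s hs hs1
    have hz := hseg s hs hs1
    refine ⟨hne _ _ hz hζ', hne _ _ hz (hneg _ hζ'), hne _ _ hz hyH, hne _ _ hz (hneg _ hyH), ?_⟩
    refine (hE.arg _ hz).congr ?_
    rw [← AC2_f_sub, ← AC2_f_sub, hy])
  refine ⟨M, ?_⟩
  rintro z ⟨s, hs, rfl⟩ hz
  have hs0 : 0 < s := by
    rcases hs.1.lt_or_eq with h | h
    · exact h
    · exfalso
      apply hz
      simp only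
      rw [← h, Complex.ofReal_zero, zero_mul, add_zero]
      exact h0
  exact hM s hs0 hs.2

theorem p_AC2 (hCAC : Stmt_CAC) (hEIN : Stmt_EIN) (hSGP : Stmt_SGP) (hABS : Stmt_ABS) :
    Stmt_AC2 := by
  intro c H hH hHc hH'c ζ ζ' E hζ hζ' hE
  have hH' : IsCompact (f c ⁻¹' H) := HH.preimage_compact c hH
  have hζn : Acc (f c ⁻¹' H) (-ζ') := by
    obtain ⟨hm, p, hp⟩ := hζ'
    refine ⟨?_, -p, fun s h1 h2 h3 => hp s h1 h2 ?_⟩
    · rw [Set.mem_preimage, HH.f_neg]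
      exact hm
    · rw [Set.mem_preimage] at h3 ⊢
      have e : -ζ' + (s : ℂ) * (-p - -ζ') = -(ζ' + s * (p - ζ')) := by ring
      rw [e, HH.f_neg] at h3
      exact h3
  obtain ⟨L₁, p₁, a₁, h₁⟩ := hCAC _ hH' hH'c ζ' hζ'
  obtain ⟨L₂, p₂, a₂, h₂⟩ := hCAC _ hH' hH'c (-ζ') hζn
  obtain ⟨L₃, p₃, a₃, h₃⟩ := hCAC _ hH hHc ζ hζ
  obtain ⟨M₁, hM₁⟩ := h₁.cut.bdd
  obtain ⟨M₂, hM₂⟩ := h₂.cut.bdd
  obtain ⟨M₃, hM₃⟩ := h₃.cut.bdd
  have hp : p₁ ∉ f c ⁻¹' H := by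
    have h := h₁.seg 1 one_pos le_rfl
    rw [Complex.ofReal_one, one_mul, add_sub_cancel] at h
    exact h
  have hζ'H : f c ζ' ∈ H := hζ'.1
  have hF : Bdd (fun z => E (f c z)) (f c ⁻¹' H)ᶜ := by
    refine hABS (f c ⁻¹' H)ᶜ (((L₁ ∪ (fun s : ℝ => ζ' + s * (p₁ - ζ')) '' Icc 0 1) ∪
      (L₂ ∪ (fun s : ℝ => -ζ' + s * (p₂ - -ζ')) '' Icc 0 1)) ∪
      f c ⁻¹' (L₃ ∪ (fun s : ℝ => ζ + s * (p₃ - ζ)) '' Icc 0 1)) (fun z => E (f c z))
      (fun z => a₁ z + a₂ z - a₃ (f c z))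
      hH'.isClosed.isOpen_compl hH'c
      ((h₁.cut.cl.union h₂.cut.cl).union (h₃.cut.cl.preimage (HH.f_cont c))) ⟨p₁, hp, ?_⟩
      (hE.cont.comp (HH.f_cont c).continuousOn fun z hz => hz) ?_ ?_ ?_ ?_
    · refine Or.inl (Or.inl (Or.inr ⟨1, ⟨zero_le_one, le_rfl⟩, ?_⟩))
      simp only
      rw [Complex.ofReal_one, one_mul, add_sub_cancel]
    · obtain ⟨N1, hN1⟩ := AC2_L hEIN (c := c) hH hE h₁.cl h₁.off
      obtain ⟨N2, hN2⟩ := AC2_L hEIN (c := c) hH hE h₂.cl h₂.off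
      obtain ⟨N3, hN3⟩ := AC2_seg hSGP hE hζ.1 hζ'.1 ζ' p₁ hζ'.1 h₁.seg
      obtain ⟨N4, hN4⟩ := AC2_seg hSGP hE hζ.1 hζ'.1 (-ζ') p₂ hζn.1 h₂.seg
      obtain ⟨N5, hN5⟩ := ACC_L hEIN hH hE h₃.cl h₃.off
      obtain ⟨N6, hN6⟩ := ACC_seg hSGP hE hζ'H hζ.1 ζ p₃ hζ.1 h₃.seg
      refine ⟨max (max (max N1 N3) (max N2 N4)) (max N5 N6), ?_⟩
      rintro z ⟨hz, ((hz' | hz') | (hz' | hz')) | (hz' | hz')⟩
      · exact (hN1 z hz').trans ((le_max_left _ _).trans ((le_max_left _ _).trans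
          (le_max_left _ _)))
      · exact (hN3 z hz' hz).trans ((le_max_right _ _).trans ((le_max_left _ _).trans
          (le_max_left _ _)))
      · exact (hN2 z hz').trans ((le_max_left _ _).trans ((le_max_right _ _).trans
          (le_max_left _ _)))
      · exact (hN4 z hz' hz).trans ((le_max_right _ _).trans ((le_max_right _ _).trans
          (le_max_left _ _)))
      · exact (hN5 _ hz').trans ((le_max_left _ _).trans (le_max_right _ _))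
      · exact (hN6 _ hz' hz).trans ((le_max_right _ _).trans (le_max_right _ _))
    · refine ContinuousOn.sub (ContinuousOn.add (h₁.cut.cont.mono ?_) (h₂.cut.cont.mono ?_))
        (h₃.cut.cont.comp (HH.f_cont c).continuousOn ?_)
      · rintro z ⟨-, hz⟩ h
        exact hz (Or.inl (Or.inl h))
      · rintro z ⟨-, hz⟩ h
        exact hz (Or.inl (Or.inr h))
      · rintro z ⟨-, hz⟩ h
        exact hz (Or.inr h)
    · refine ⟨M₁ + M₂ + M₃, fun z _ => ?_⟩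
      have h1 := hM₁ z
      have h2 := hM₂ z
      have h3 := hM₃ (f c z)
      exact (abs_sub _ _).trans (add_le_add ((abs_add_le _ _).trans (add_le_add h1 h2)) h3)
    · rintro z ⟨hz, hz'⟩
      have g1 : z ∉ L₁ ∪ (fun s : ℝ => ζ' + s * (p₁ - ζ')) '' Icc 0 1 :=
        fun h => hz' (Or.inl (Or.inl h))
      have g2 : z ∉ L₂ ∪ (fun s : ℝ => -ζ' + s * (p₂ - -ζ')) '' Icc 0 1 :=
        fun h => hz' (Or.inl (Or.inr h))
      have g3 : f c z ∉ L₃ ∪ (fun s : ℝ => ζ + s * (p₃ - ζ)) '' Icc 0 1 :=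
        fun h => hz' (Or.inr h)
      have n1 : f c z - f c ζ' ≠ 0 := by
        intro h
        rw [sub_eq_zero] at h
        apply hz
        rw [mem_preimage, h]
        exact hζ'H
      have n2 : f c z - ζ ≠ 0 := by
        intro h
        rw [sub_eq_zero] at h
        apply hz
        rw [mem_preimage, h]
        exact hζ.1
      refine Ag.unique (div_ne_zero n1 n2) (hE.arg _ hz) ?_
      refine (((h₁.cut.arg z g1).mul (h₂.cut.arg z g2)).div (h₃.cut.arg _ g3)).congr ?_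
      rw [AC2_f_sub]
  obtain ⟨M, hM⟩ := hF
  refine ⟨M, fun z hz => ?_⟩
  obtain ⟨u, hu⟩ := HH.f_surj c z
  have h := hM u (by
    intro h
    apply hz
    rw [mem_preimage, hu] at h
    exact h)
  simp only at h
  rw [hu] at h
  exact h

end ICP
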