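import Pool.Agent.Work.MP_065151_ic.Interface

/-!
# Block ACC (typed by helper21): the argument of `(z - ζ) / (z - ζ')` is bounded
-/

set_option autoImplicit false

open Topology Metric Filter Set

namespace ICP

theorem ACC_L (hEIN : Stmt_EIN) {Z L : Set ℂ} {x y : ℂ} {E : ℂ → ℝ} (hZ : IsCompact Z)
    (hE : PL Z x y E) (hL : IsClosed L) (hLZ : L ⊆ Zᶜ) : ∃ M : ℝ, ∀ z ∈ L, |E z| ≤ M := by
  obtain ⟨R, M, hRM⟩ := hEIN Z x y E hZ hE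
  have hK : IsCompact (closedBall (0 : ℂ) R ∩ L) := (isCompact_closedBall 0 R).inter_right hL
  have hc : ContinuousOn E (closedBall (0 : ℂ) R ∩ L) := hE.cont.mono fun z hz => hLZ hz.2
  obtain ⟨M', hM'⟩ := hK.exists_bound_of_continuousOn hc
  refine ⟨max M M', fun z hz => ?_⟩
  rcases le_or_gt R ‖z‖ with h | h
  · exact (hRM z h).2.trans (le_max_left _ _)
  · refine (hM' z ⟨?_, hz⟩).trans (le_max_right _ _)
    rw [mem_closedBall_zero_iff]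
    exact h.le

theorem ACC_seg (hSGP : Stmt_SGP) {Z : Set ℂ} {ζ ζ' : ℂ} {E : ℂ → ℝ} (hE : PL Z ζ ζ' E)
    (hζ : ζ ∈ Z) (hζ' : ζ' ∈ Z) (ζ₀ p : ℂ) (h0 : ζ₀ ∈ Z)
    (hseg : ∀ s : ℝ, 0 < s → s ≤ 1 → ζ₀ + s * (p - ζ₀) ∉ Z) :
    ∃ M : ℝ, ∀ z ∈ (fun s : ℝ => ζ₀ + s * (p - ζ₀)) '' Icc 0 1, z ∉ Z → |E z| ≤ M := by
  have hv : p - ζ₀ ≠ 0 := by
    intro h
    apply hseg 1 one_pos le_rfl
    rw [h, mul_zero, add_zero]
    exact h0
  have hcm : Continuous fun s : ℝ => ζ₀ + (s : ℂ) * (p - ζ₀) :=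
    continuous_const.add (Complex.continuous_ofReal.mul continuous_const)
  have hce : ContinuousOn (fun s : ℝ => E (ζ₀ + s * (p - ζ₀))) (Ioc 0 1) :=
    hE.cont.comp hcm.continuousOn fun s hs => hseg s hs.1 hs.2
  obtain ⟨M, hM⟩ := hSGP ζ₀ (p - ζ₀) ζ ζ' ζ' ζ' (fun s : ℝ => E (ζ₀ + s * (p - ζ₀))) hv hce (by
    intro s hs hs1
    have hz := hseg s hs hs1
    have h1 : ζ₀ + s * (p - ζ₀) - ζ ≠ 0 := by
      intro h
      rw [sub_eq_zero] at h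
      exact hz (h ▸ hζ)
    have h2 : ζ₀ + s * (p - ζ₀) - ζ' ≠ 0 := by
      intro h
      rw [sub_eq_zero] at h
      exact hz (h ▸ hζ')
    refine ⟨h1, h2, h2, h2, ?_⟩
    refine (hE.arg _ hz).congr ?_
    rw [mul_div_mul_right _ _ h2])
  refine ⟨M, ?_⟩
  rintro z ⟨s, hs, rfl⟩ hz
  have hs0 : 0 < s := by
    rcases hs.1.lt_or_eq with h | h
    · exact h
    · exfalso
      apply hz
      simp only
      rw [← h, Complex.ofReal_zero, zero_mul, add_zero]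
      exact h0
  exact hM s hs0 hs.2

theorem p_ACC (hCAC : Stmt_CAC) (hEIN : Stmt_EIN) (hSGP : Stmt_SGP) (hABS : Stmt_ABS) :
    Stmt_ACC := by
  intro Z hZ hZc ζ ζ' E hζ hζ' hE
  obtain ⟨L, p, a, hL⟩ := hCAC Z hZ hZc ζ hζ
  obtain ⟨L', p', a', hL'⟩ := hCAC Z hZ hZc ζ' hζ'
  obtain ⟨M1, hM1⟩ := hL.cut.bdd
  obtain ⟨M2, hM2⟩ := hL'.cut.bdd
  have hp : p ∉ Z := by
    have h := hL.seg 1 one_pos le_rfl
    rw [Complex.ofReal_one, one_mul, add_sub_cancel] at h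
    exact h
  refine hABS Zᶜ ((L ∪ (fun s : ℝ => ζ + s * (p - ζ)) '' Icc 0 1) ∪
    (L' ∪ (fun s : ℝ => ζ' + s * (p' - ζ')) '' Icc 0 1)) E (fun z => a z - a' z)
    hZ.isClosed.isOpen_compl hZc (hL.cut.cl.union hL'.cut.cl) ⟨p, hp, ?_⟩ hE.cont ?_ ?_ ?_ ?_
  · refine Or.inl (Or.inr ⟨1, ⟨zero_le_one, le_rfl⟩, ?_⟩)
    simp only
    rw [Complex.ofReal_one, one_mul, add_sub_cancel]
  · obtain ⟨N1, hN1⟩ := ACC_L hEIN hZ hE hL.cl hL.off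
    obtain ⟨N2, hN2⟩ := ACC_L hEIN hZ hE hL'.cl hL'.off
    obtain ⟨N3, hN3⟩ := ACC_seg hSGP hE hζ.1 hζ'.1 ζ p hζ.1 hL.seg
    obtain ⟨N4, hN4⟩ := ACC_seg hSGP hE hζ.1 hζ'.1 ζ' p' hζ'.1 hL'.seg
    refine ⟨max (max N1 N3) (max N2 N4), ?_⟩
    rintro z ⟨hz, (hz' | hz') | (hz' | hz')⟩
    · exact (hN1 z hz').trans ((le_max_left _ _).trans (le_max_left _ _))
    · exact (hN3 z hz' hz).trans ((le_max_right _ _).trans (le_max_left _ _))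
    · exact (hN2 z hz').trans ((le_max_left _ _).trans (le_max_right _ _))
    · exact (hN4 z hz' hz).trans ((le_max_right _ _).trans (le_max_right _ _))
  · refine ContinuousOn.sub (hL.cut.cont.mono ?_) (hL'.cut.cont.mono ?_)
    · rintro z ⟨-, hz⟩ h
      exact hz (Or.inl h)
    · rintro z ⟨-, hz⟩ h
      exact hz (Or.inr h)
  · refine ⟨M1 + M2, fun z _ => ?_⟩
    have h1 := hM1 z
    have h2 := hM2 z
    exact (abs_sub _ _).trans (add_le_add h1 h2)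
  · rintro z ⟨hz, hz'⟩
    have h1 : z ∉ L ∪ (fun s : ℝ => ζ + s * (p - ζ)) '' Icc 0 1 := fun h => hz' (Or.inl h)
    have h2 : z ∉ L' ∪ (fun s : ℝ => ζ' + s * (p' - ζ')) '' Icc 0 1 := fun h => hz' (Or.inr h)
    have h3 : z - ζ ≠ 0 := by
      intro h
      rw [sub_eq_zero] at h
      exact hz (h ▸ hζ.1)
    have h4 : z - ζ' ≠ 0 := by
      intro h
      rw [sub_eq_zero] at h
      exact hz (h ▸ hζ'.1)
    exact Ag.unique (div_ne_zero h3 h4) (hE.arg z hz) ((hL.cut.arg z h1).div (hL'.cut.arg z h2))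

end ICP
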