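import Pool.Agent.Work.MP_065151_ic.Interface

/-!
# Block BL1
-/

set_option autoImplicit false

open Topology Metric Filter Set

namespace ICP

open R4C (f K Bot)

lemma BL1_slit {b z : ℂ} {R : ℝ} (hb : b ≠ 0) (hR : R < ‖b‖) (hz : z ∈ closedBall b R) :
    z / b ∈ Complex.slitPlane := by
  have h1 : z / b = 1 + (z - b) / b := by
    field_simp
    ring
  rw [h1]
  apply Complex.mem_slitPlane_of_norm_lt_one
  rw [norm_div, div_lt_one (norm_pos_iff.2 hb)]
  rw [mem_closedBall, dist_eq_norm] at hz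
  exact lt_of_le_of_lt hz hR

lemma BL1_cont {b : ℂ} {R : ℝ} (hb : b ≠ 0) (hR : R < ‖b‖) :
    ContinuousOn (fun z : ℂ => (z / b).arg + b.arg) (closedBall b R) := by
  refine ContinuousOn.add ?_ continuousOn_const
  intro z hz
  have h1 : ContinuousAt (fun z : ℂ => z / b) z := by fun_prop
  exact (ContinuousAt.comp (f := fun z : ℂ => z / b) (x := z)
    (Complex.continuousAt_arg (BL1_slit hb hR hz)) h1).continuousWithinAt

lemma BL1_ag {b z : ℂ} (hb : b ≠ 0) : Ag z ((z / b).arg + b.arg) := by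
  have h1 := (Ag_arg (z / b)).mul (Ag_arg b)
  rwa [div_mul_cancel₀ _ hb] at h1

lemma BL1_bd (b z : ℂ) : |(z / b).arg + b.arg| ≤ 2 * Real.pi := by
  have h1 := Complex.abs_arg_le_pi (z / b)
  have h2 := Complex.abs_arg_le_pi b
  have h3 := abs_add_le (z / b).arg b.arg
  linarith

theorem p_BL1 (hPLX : Stmt_PLX) (hDAX : Stmt_DAX) (hDDF : Stmt_DDF) (hDSQ : Stmt_DSQ) :
    Stmt_BL1 := by
  intro c ψ hψ h0 hi H hH hHc hHK hcH h0H b hb hbH ζ hζ D hD hDb
  have hfull := HH.full_sub h0 hi hHK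
  obtain ⟨E0, hE0⟩ := hPLX H hH hHc hfull 0 h0H ζ hζ
  obtain ⟨E1, hE1⟩ := hPLX H hH hHc hfull c hcH 0 h0H
  obtain ⟨D0, hD0, -⟩ := hDAX c ψ hψ 0 h0
  obtain ⟨D1, hD1, -⟩ := hDAX c ψ hψ c (hHK hcH)
  obtain ⟨n0, hn0⟩ := hDDF c ψ hψ H hHK 0 h0H ζ hζ E0 D0 D hE0 hD0 hD
  obtain ⟨n1, hn1⟩ := hDDF c ψ hψ H hHK c hcH 0 h0H E1 D1 D0 hE1 hD1 hD0
  obtain ⟨n2, hn2⟩ := hDSQ c ψ hψ 0 h0 D0 D0 D1 hD0 (by rw [neg_zero]; exact hD0)
    (by rw [HH.f_zero]; exact hD1)
  -- the radii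
  obtain ⟨R, hR, hRH⟩ : ∃ R : ℝ, 0 < R ∧ closedBall b R ⊆ Hᶜ :=
    Metric.nhds_basis_closedBall.mem_iff.1 (hH.isClosed.isOpen_compl.mem_nhds hbH)
  have hb0 : b ≠ 0 := by
    rintro rfl
    exact hbH h0H
  have hRb : R < ‖b‖ := by
    by_contra hcon
    push Not at hcon
    exact hRH (show (0 : ℂ) ∈ closedBall b R by
      rw [mem_closedBall, dist_eq_norm, zero_sub, norm_neg]; exact hcon) h0H
  obtain ⟨M0, hM0⟩ := (isCompact_closedBall b R).exists_bound_of_continuousOn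
    (hE0.cont.mono hRH)
  obtain ⟨MD, hMD⟩ := hDb
  have hfc : Continuous (f c) := HH.f_cont c
  obtain ⟨r, hr, hrR, hrf⟩ : ∃ r : ℝ, 0 < r ∧ r ≤ R ∧ ∀ z ∈ ball b r, f c z ∈ ball b R := by
    have h1 : ∀ᶠ z in 𝓝 b, f c z ∈ ball b R := by
      apply hfc.continuousAt.eventually_mem
      rw [hb]
      exact ball_mem_nhds b hR
    obtain ⟨ε, hε, hε2⟩ := Metric.eventually_nhds_iff_ball.1 h1
    exact ⟨min ε R, lt_min hε hR, min_le_right _ _, fun z hz =>
      hε2 z (ball_subset_ball (min_le_left _ _) hz)⟩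
  set l : ℂ → ℝ := fun z => (z / b).arg + b.arg with hl
  have hlc : ContinuousOn l (ball b R) := (BL1_cont hb0 hRb).mono ball_subset_closedBall
  have hsubb : ball b r ⊆ ball b R := ball_subset_ball hrR
  have hfball : MapsTo (f c) (ball b r) (ball b R) := hrf
  have hΘ : ContinuousOn (fun z => 2 * l z - l (f c z) - E1 (f c z)) (ball b r) := by
    have h2 : ContinuousOn (fun z => l (f c z)) (ball b r) :=
      hlc.comp hfc.continuousOn hfball
    have h3 : ContinuousOn (fun z => E1 (f c z)) (ball b r) :=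
      (hE1.cont.mono (ball_subset_closedBall.trans hRH)).comp hfc.continuousOn hfball
    exact ((continuousOn_const.mul (hlc.mono hsubb)).sub h2).sub h3
  have hw2 : ∀ {w : ℂ}, 1 < ‖w‖ → 1 < ‖w ^ 2‖ := by
    intro w hw
    rw [norm_pow]
    exact one_lt_pow₀ hw two_ne_zero
  have hlam : ∀ w, 1 < ‖w‖ → Ag w (l (ψ w) - D0 w) := by
    intro w hw
    have hw0 : w ≠ 0 := norm_pos_iff.1 (by linarith)
    have hψ0 : ψ w ≠ 0 := by
      intro h1
      have h2 : ψ w ∈ (K c)ᶜ := by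
        rw [← hψ.img]
        exact ⟨w, hw, rfl⟩
      rw [h1] at h2
      exact h2 h0
    have h1 := (BL1_ag (z := ψ w) hb0).div (hD0.arg w hw)
    refine h1.congr ?_
    rw [sub_zero]
    field_simp
  have hrel : ∀ w, 1 < ‖w‖ → ψ w ∈ ball b r →
      2 * (l (ψ w) - D0 w) - (l (ψ (w ^ 2)) - D0 (w ^ 2)) =
        (2 * l (ψ w) - l (f c (ψ w)) - E1 (f c (ψ w))) + 2 * Real.pi * ((n2 - n1 : ℤ) : ℝ) := by
    intro w hw hwb
    have e1 := hn1 (w ^ 2) (hw2 hw)
    have e2 := hn2 w hw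
    rw [hψ.eqn w hw] at e1 ⊢
    push_cast
    linear_combination e2 - e1
  have hint : ∀ z ∈ ball b r, z ∉ K c →
      ∃ n : ℤ, 2 * l z - l (f c z) - E1 (f c z) = 2 * Real.pi * n := by
    intro z hz hzK
    obtain ⟨w, hw, rfl⟩ : z ∈ ψ '' {w | 1 < ‖w‖} := by
      rw [hψ.img]
      exact hzK
    have hw : 1 < ‖w‖ := hw
    have hw0 : w ^ 2 ≠ 0 := norm_pos_iff.1 (by linarith [hw2 hw])
    obtain ⟨m, hm⟩ := Ag.unique hw0 (hlam w hw).sq (hlam (w ^ 2) (hw2 hw))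
    have h1 := hrel w hw hz
    refine ⟨m - (n2 - n1), ?_⟩
    rw [hm] at h1
    push_cast at h1 ⊢
    linear_combination -h1
  have hint2 : ∀ z ∈ ball b r,
      ∃ n : ℤ, 2 * l z - l (f c z) - E1 (f c z) = 2 * Real.pi * n := by
    intro z hz
    by_contra hcon
    have hne : Complex.exp (((2 * l z - l (f c z) - E1 (f c z) : ℝ) : ℂ) * Complex.I) ≠ 1 := by
      intro h1
      obtain ⟨n, hn⟩ := Complex.exp_eq_one_iff.1 h1
      apply hcon
      refine ⟨n, ?_⟩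
      have h2 : ((2 * l z - l (f c z) - E1 (f c z) : ℝ) : ℂ) * Complex.I =
          ((2 * Real.pi * n : ℝ) : ℂ) * Complex.I := by
        rw [hn]
        push_cast
        ring
      exact_mod_cast mul_right_cancel₀ Complex.I_ne_zero h2
    have hcz : ContinuousAt (fun z => Complex.exp
        (((2 * l z - l (f c z) - E1 (f c z) : ℝ) : ℂ) * Complex.I)) z := by
      have h1 := hΘ.continuousAt (isOpen_ball.mem_nhds hz)
      exact ((Complex.continuous_ofReal.continuousAt.comp h1).mul continuousAt_const).cexp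
    have hev := hcz.eventually_ne hne
    have hd : Dense (K c)ᶜ := interior_eq_empty_iff_dense_compl.1 hi
    have hev2 : ∀ᶠ y in 𝓝 z, y ∈ ball b r := isOpen_ball.mem_nhds hz
    obtain ⟨y, ⟨hy1, hy2⟩, hyK⟩ := ((mem_closure_iff_frequently.1 (hd z)).and_eventually
      (hev.and hev2)).exists.imp fun y hy => (⟨hy.2, hy.1⟩ : _ ∧ _)
    obtain ⟨n, hn⟩ := hint y hy2 hyK
    apply hy1
    rw [hn]
    have : ((2 * Real.pi * n : ℝ) : ℂ) * Complex.I = n * (2 * Real.pi * Complex.I) := by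
      push_cast
      ring
    rw [this]
    exact Complex.exp_int_mul_two_pi_mul_I n
  obtain ⟨k, hk⟩ := lcd (convex_ball b r).isPreconnected hΘ
    (continuousOn_const (c := (0 : ℝ))) (fun z hz => by
      obtain ⟨n, hn⟩ := hint2 z hz
      exact ⟨n, by rw [sub_zero]; exact hn⟩)
  simp only [sub_zero] at hk
  set k' : ℤ := k + (n2 - n1) with hk'
  refine ⟨r, hr, fun w => (l (ψ w) - D0 w) - 2 * Real.pi * k',
    2 * Real.pi + (MD + M0 + 2 * Real.pi * |(n0 : ℝ)|) + 2 * Real.pi * |(k' : ℝ)|, ?_⟩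
  intro w hw hwb
  refine ⟨?_, ?_, ?_⟩
  · have h1 := (hlam w hw).add_int (-k')
    have h2 : l (ψ w) - D0 w + 2 * Real.pi * ((-k' : ℤ) : ℝ) =
        l (ψ w) - D0 w - 2 * Real.pi * k' := by
      push_cast
      ring
    rwa [h2] at h1
  · have e0 := hn0 w hw
    have h1 := BL1_bd b (ψ w)
    have h2 := hMD w hw
    have h3 := hM0 (ψ w) (ball_subset_closedBall (hsubb hwb))
    rw [Real.norm_eq_abs] at h3
    have hpi := Real.pi_pos
    have h4 : l (ψ w) - D0 w - 2 * Real.pi * k' =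
        l (ψ w) - (D w + E0 (ψ w) + 2 * Real.pi * n0) - 2 * Real.pi * k' := by
      linear_combination e0 * (-1)
    show |l (ψ w) - D0 w - 2 * Real.pi * k'| ≤ _
    rw [h4]
    have h5 : |2 * Real.pi * (n0 : ℝ)| = 2 * Real.pi * |(n0 : ℝ)| := by
      rw [abs_mul, abs_of_pos (by linarith)]
    have h6 : |2 * Real.pi * (k' : ℝ)| = 2 * Real.pi * |(k' : ℝ)| := by
      rw [abs_mul, abs_of_pos (by linarith)]
    have a1 := abs_sub (l (ψ w) - (D w + E0 (ψ w) + 2 * Real.pi * n0)) (2 * Real.pi * k')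
    have a2 := abs_sub (l (ψ w)) (D w + E0 (ψ w) + 2 * Real.pi * n0)
    have a3 := abs_add_le (D w + E0 (ψ w)) (2 * Real.pi * n0)
    have a4 := abs_add_le (D w) (E0 (ψ w))
    rw [h6] at a1
    rw [h5] at a3
    have h1' : |l (ψ w)| ≤ 2 * Real.pi := h1
    linarith
  · intro hwb2
    have h1 := hrel w hw hwb
    rw [hk _ hwb] at h1
    push_cast [hk'] at h1 ⊢
    linear_combination -h1
end ICP
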