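import Pool.Agent.Work.MP_065151_ic.Interface

/-!
# MP_065151_an, the irreducible critical pair, block BL2
-/

set_option autoImplicit false

open Topology Metric Filter Set

namespace ICP

open R4C (f K Bot)

theorem p_BL2 : Stmt_BL2 := by
  intro c ψ hB b r M μ hfb hr hμ
  have hpi := Real.pi_pos
  obtain ⟨m, hm⟩ : ∃ m : ℕ, M < Real.pi / 2 * 2 ^ m := by
    obtain ⟨m, hm⟩ := pow_unbounded_of_one_lt (M / (Real.pi / 2)) (one_lt_two (α := ℝ))
    refine ⟨m, ?_⟩
    rw [div_lt_iff₀ (by positivity)] at hm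
    linarith
  refine ⟨⋂ j ∈ Finset.range (m + 1), (f c)^[j] ⁻¹' ball b r, ?_, ?_, ?_⟩
  · exact isOpen_biInter_finset (fun j _ => isOpen_ball.preimage ((HH.f_cont c).iterate j))
  · simp only [Set.mem_iInter]
    intro j _
    show (f c)^[j] b ∈ ball b r
    rw [Function.iterate_fixed hfb]
    exact mem_ball_self hr
  · intro w hw hwN
    simp only [Set.mem_iInter] at hwN
    have hpw : ∀ j : ℕ, 1 < ‖w ^ 2 ^ j‖ := by
      intro j
      rw [norm_pow]
      exact one_lt_pow₀ hw (by positivity)
    have hit : ∀ j : ℕ, (f c)^[j] (ψ w) = ψ (w ^ 2 ^ j) := by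
      intro j
      induction j with
      | zero => simp
      | succ j ih =>
        rw [Function.iterate_succ_apply', ih, ← hB.eqn _ (hpw j), ← pow_mul, ← pow_succ]
    have hin : ∀ j ≤ m, ψ (w ^ 2 ^ j) ∈ ball b r := by
      intro j hj
      rw [← hit j]
      exact hwN j (Finset.mem_range.2 (by omega))
    have hmu : ∀ j ≤ m, μ (w ^ 2 ^ j) = 2 ^ j * μ w := by
      intro j
      induction j with
      | zero => intro _; simp
      | succ j ih =>
        intro hj
        have h1 := (hμ _ (hpw j) (hin j (by omega))).2.2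
        have e : (w ^ 2 ^ j) ^ 2 = w ^ 2 ^ (j + 1) := by rw [← pow_mul, ← pow_succ]
        rw [e] at h1
        rw [h1 (hin (j + 1) hj), ih (by omega), pow_succ]
        ring
    have h1 := (hμ _ (hpw m) (hin m le_rfl)).2.1
    have h2m : (0 : ℝ) < 2 ^ m := by positivity
    rw [hmu m le_rfl, abs_mul, abs_of_pos h2m] at h1
    have h0 := hμ w hw (by simpa using hin 0 (Nat.zero_le _))
    have hw0 : w ≠ 0 := by
      rintro rfl
      rw [norm_zero] at hw
      linarith
    refine h0.1.re_pos hw0 ?_
    nlinarith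

end ICP
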