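import Pool.Agent.Work.MP_065151_ic.Interface

/-! # Block CAC -/

set_option autoImplicit false

open Topology Metric Filter Set

namespace ICP

theorem p_CAC (hCTA : Stmt_CTA) (hSTP : Stmt_STP) : Stmt_CAC := by
  intro Z hZ hf ζ hζ
  obtain ⟨-, p, hp⟩ := hζ
  have hpZ : p ∉ Z := by
    have h1 := hp 1 one_pos le_rfl
    have h2 : ζ + ((1 : ℝ) : ℂ) * (p - ζ) = p := by push_cast; ring
    rwa [h2] at h1
  obtain ⟨L, a, hcut, hL⟩ := hCTA Z hZ hf p hpZ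
  obtain ⟨a', ha'⟩ := hSTP L ζ p a hcut
  exact ⟨L, p, a', ⟨hcut.cl, hL, hp, ha'⟩⟩

end ICP
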