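import Pool.Agent.Work.MP_065151_ic.Interface

set_option autoImplicit false

open Topology Metric Filter Set

namespace ICP

open R4C (f K Bot)

lemma CMP_acc_mono {Z Y : Set ℂ} {ζ : ℂ} (h : Acc Z ζ) (hY : Y ⊆ Z) (hm : ζ ∈ Y) : Acc Y ζ := by
  obtain ⟨-, p, hp⟩ := h
  exact ⟨hm, p, fun s h1 h2 h3 => hp s h1 h2 (hY h3)⟩

lemma CMP_acc_neg {c : ℂ} {H : Set ℂ} {ζ : ℂ} (h : Acc (f c ⁻¹' H) ζ) :
    Acc (f c ⁻¹' H) (-ζ) := by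
  obtain ⟨hm, p, hp⟩ := h
  refine ⟨?_, -p, fun s h1 h2 h3 => hp s h1 h2 ?_⟩
  · rw [Set.mem_preimage, HH.f_neg]
    exact hm
  · rw [Set.mem_preimage] at h3 ⊢
    have e : -ζ + (s : ℂ) * (-p - -ζ) = -(ζ + s * (p - ζ)) := by ring
    rw [e, HH.f_neg] at h3
    exact h3

lemma CMP_off {c : ℂ} {ψ : ℂ → ℂ} (hB : Bot c ψ) {w : ℂ} (hw : 1 < ‖w‖) : ψ w ∉ K c := by
  have h : ψ w ∈ ψ '' {w | 1 < ‖w‖} := ⟨w, hw, rfl⟩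
  rw [hB.img] at h
  exact h

theorem p_CMP (hACC : Stmt_ACC) (hAC2 : Stmt_AC2) (hPLX : Stmt_PLX) (hDAX : Stmt_DAX)
    (hDDF : Stmt_DDF) (hDSQ : Stmt_DSQ) (hNUM : Stmt_NUM) : Stmt_CMP := by
  intro c ψ hB h0 hi H hH hHp hHK hcH h0H ζ ζ' hζ hζ' hA hA' D hD
  have hH'c : IsCompact (f c ⁻¹' H) := HH.preimage_compact c hH
  have hH'p : IsPreconnected (f c ⁻¹' H) := HH.preimage_conn c hH hHp hcH
  have hH'K : f c ⁻¹' H ⊆ K c := fun z hz => (HH.f_mem_K c z).1 (hHK hz)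
  have h0' : (0 : ℂ) ∈ f c ⁻¹' H := by
    rw [Set.mem_preimage, HH.f_zero]
    exact hcH
  have hZc : IsCompact (H ∪ f c ⁻¹' H) := hH.union hH'c
  have hZp : IsPreconnected (H ∪ f c ⁻¹' H) := IsPreconnected.union 0 h0H h0' hHp hH'p
  have hZK : H ∪ f c ⁻¹' H ⊆ K c := Set.union_subset hHK hH'K
  have fZ : IsPreconnected (H ∪ f c ⁻¹' H)ᶜ := HH.full_sub h0 hi hZK
  have fH : IsPreconnected Hᶜ := HH.full_sub h0 hi hHK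
  have fH' : IsPreconnected (f c ⁻¹' H)ᶜ := HH.full_sub h0 hi hH'K
  have aζ : Acc H ζ := CMP_acc_mono hA Set.subset_union_left hζ
  have aζ' : Acc (f c ⁻¹' H) ζ' := CMP_acc_mono hA' Set.subset_union_right hζ'
  have aζn : Acc (f c ⁻¹' H) (-ζ') := CMP_acc_neg aζ'
  have kζ : ζ ∈ K c := hHK hζ
  have kζ' : ζ' ∈ K c := hH'K hζ'
  have kζn : -ζ' ∈ K c := hH'K aζn.1
  have kf : f c ζ' ∈ K c := hHK hζ'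
  obtain ⟨E₁, hE₁⟩ := hPLX _ hZc hZp fZ ζ (Or.inl hζ) ζ' (Or.inr hζ')
  obtain ⟨M₁, hM₁⟩ := hACC _ hZc fZ ζ ζ' E₁ hA hA' hE₁
  obtain ⟨E₂, hE₂⟩ := hPLX _ hH'c hH'p fH' ζ' hζ' (-ζ') aζn.1
  obtain ⟨M₂, hM₂⟩ := hACC _ hH'c fH' ζ' (-ζ') E₂ aζ' aζn hE₂
  obtain ⟨E₃, hE₃⟩ := hPLX _ hH hHp fH (f c ζ') hζ' ζ hζ
  obtain ⟨M₃, hM₃⟩ := hAC2 c H hH fH fH' ζ ζ' E₃ aζ aζ' hE₃
  obtain ⟨D₀, hD₀, M₀, hM₀⟩ := hDAX c ψ hB ζ kζ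
  obtain ⟨D₁, hD₁, -⟩ := hDAX c ψ hB ζ' kζ'
  obtain ⟨D₂, hD₂, -⟩ := hDAX c ψ hB (-ζ') kζn
  obtain ⟨D₃, hD₃, -⟩ := hDAX c ψ hB (f c ζ') kf
  obtain ⟨n₁, hn₁⟩ := hDDF c ψ hB _ hZK ζ (Or.inl hζ) ζ' (Or.inr hζ') E₁ D D₁ hE₁ hD hD₁
  obtain ⟨n₂, hn₂⟩ := hDDF c ψ hB _ hH'K ζ' hζ' (-ζ') aζn.1 E₂ D₁ D₂ hE₂ hD₁ hD₂
  obtain ⟨n₃, hn₃⟩ := hDDF c ψ hB _ hHK (f c ζ') hζ' ζ hζ E₃ D₃ D hE₃ hD₃ hD
  obtain ⟨n₄, hn₄⟩ := hDSQ c ψ hB ζ' kζ' D₁ D₂ D₃ hD₁ hD₂ hD₃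
  -- `D` is bounded for `2 ≤ ‖w‖`
  obtain ⟨n₀, hn₀⟩ := lcd HH.isConnected_outside.isPreconnected hD.cont hD₀.cont (by
    intro w hw
    have hw1 : 1 < ‖w‖ := hw
    refine Ag.unique ?_ (hD.arg w hw1) (hD₀.arg w hw1)
    have hw0 : w ≠ 0 := by
      rintro rfl
      rw [norm_zero] at hw1
      linarith
    refine div_ne_zero ?_ hw0
    intro h
    rw [sub_eq_zero] at h
    exact CMP_off hB hw1 (h ▸ kζ))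
  refine hNUM D (M₃ + 2 * M₁ + M₂ + |2 * Real.pi * ((n₄ : ℝ) - n₃ - 2 * n₁ - n₂)|)
    (M₀ + |2 * Real.pi * (n₀ : ℝ)|) ?_ ?_
  · intro w hw
    have hw2 : 1 < ‖w ^ 2‖ := by
      rw [norm_pow]
      nlinarith
    have o1 : ψ w ∉ K c := CMP_off hB hw
    have o2 : ψ (w ^ 2) ∉ K c := CMP_off hB hw2
    have b1 := hM₁ (ψ w) (fun h => o1 (hZK h))
    have b2 := hM₂ (ψ w) (fun h => o1 (hH'K h))
    have b3 := hM₃ (ψ (w ^ 2)) (fun h => o2 (hHK h))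
    have e1 := hn₁ w hw
    have e2 := hn₂ w hw
    have e3 := hn₃ (w ^ 2) hw2
    have e4 := hn₄ w hw
    have key : D (w ^ 2) - 2 * D w = 2 * Real.pi * ((n₄ : ℝ) - n₃ - 2 * n₁ - n₂)
        - E₃ (ψ (w ^ 2)) - 2 * E₁ (ψ w) - E₂ (ψ w) := by
      linear_combination e4 - e3 - 2 * e1 - e2
    rw [key]
    have t := abs_le.1 b1
    have t2 := abs_le.1 b2
    have t3 := abs_le.1 b3
    have t4 := neg_abs_le (2 * Real.pi * ((n₄ : ℝ) - n₃ - 2 * n₁ - n₂))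
    have t5 := le_abs_self (2 * Real.pi * ((n₄ : ℝ) - n₃ - 2 * n₁ - n₂))
    rw [abs_le]
    constructor <;> linarith [t.1, t.2, t2.1, t2.2, t3.1, t3.2]
  · intro w hw
    have hw1 : (1 : ℝ) < ‖w‖ := by linarith
    have h1 := hn₀ w hw1
    have h2 := hM₀ w hw
    have e : D w = D₀ w + 2 * Real.pi * n₀ := by linarith
    rw [e]
    exact (abs_add_le _ _).trans (by linarith)

end ICP
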