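import Pool.Agent.Work.MP_065151_ic.Interface

set_option autoImplicit false

open Topology Metric Filter Set

namespace ICP

theorem CTA_move (hSTP : Stmt_STP) (Z : Set ℂ) (p₀ : ℂ) (ε : ℝ) (hb : ball p₀ ε ⊆ Zᶜ) (p q : ℂ)
    (hp : p ∈ ball p₀ ε) (hq : q ∈ ball p₀ ε)
    (h : ∃ (L : Set ℂ) (a : ℂ → ℝ), Cut L p a ∧ L ⊆ Zᶜ) :
    ∃ (L : Set ℂ) (a : ℂ → ℝ), Cut L q a ∧ L ⊆ Zᶜ := by
  obtain ⟨L, a, hL, hLZ⟩ := h
  obtain ⟨a', ha'⟩ := hSTP L q p a hL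
  refine ⟨_, a', ha', union_subset hLZ ?_⟩
  rintro _ ⟨s, hs, rfl⟩
  apply hb
  have := (convex_ball p₀ ε).add_smul_sub_mem hq hp hs
  rwa [Complex.real_smul] at this

theorem p_CTA (hFAR : Stmt_FAR) (hSTP : Stmt_STP) : Stmt_CTA := by
  intro Z hZ hcon p hp
  obtain ⟨R, hR⟩ := hFAR Z hZ.isBounded
  obtain ⟨C, hC⟩ := hZ.isBounded.exists_norm_le
  have hfar : ∃ p : ℂ, p ∈ Zᶜ ∧ ∃ (L : Set ℂ) (a : ℂ → ℝ), Cut L p a ∧ L ⊆ Zᶜ := by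
    refine ⟨((|R| + |C| + 1 : ℝ) : ℂ), ?_, ?_⟩
    · intro h
      have h1 := hC _ h
      rw [Complex.norm_real, Real.norm_of_nonneg (by positivity)] at h1
      have := le_abs_self C
      have := abs_nonneg R
      linarith
    · apply hR
      rw [Complex.norm_real, Real.norm_of_nonneg (by positivity)]
      have := le_abs_self R
      have := abs_nonneg C
      linarith
  have hball : ∀ x ∈ Zᶜ, ∃ ε : ℝ, 0 < ε ∧ ball x ε ⊆ Zᶜ := fun x hx =>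
    Metric.isOpen_iff.1 hZ.isClosed.isOpen_compl x hx
  obtain ⟨Q, hQ⟩ : ∃ Q : Set ℂ, Q = {p | p ∈ Zᶜ ∧
    ∃ (L : Set ℂ) (a : ℂ → ℝ), Cut L p a ∧ L ⊆ Zᶜ} := ⟨_, rfl⟩
  obtain ⟨Q', hQ'⟩ : ∃ Q' : Set ℂ, Q' = {p | p ∈ Zᶜ ∧
    ¬ ∃ (L : Set ℂ) (a : ℂ → ℝ), Cut L p a ∧ L ⊆ Zᶜ} := ⟨_, rfl⟩
  have hQo : IsOpen Q := by
    rw [Metric.isOpen_iff]
    intro x hx
    rw [hQ] at hx
    obtain ⟨ε, hε, hb⟩ := hball x hx.1
    refine ⟨ε, hε, fun y hy => ?_⟩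
    rw [hQ]
    exact ⟨hb hy, CTA_move hSTP Z x ε hb x y (mem_ball_self hε) hy hx.2⟩
  have hQo' : IsOpen Q' := by
    rw [Metric.isOpen_iff]
    intro x hx
    rw [hQ'] at hx
    obtain ⟨ε, hε, hb⟩ := hball x hx.1
    refine ⟨ε, hε, fun y hy => ?_⟩
    rw [hQ']
    exact ⟨hb hy, fun h => hx.2 (CTA_move hSTP Z x ε hb y x hy (mem_ball_self hε) h)⟩
  have hdis : Disjoint Q Q' := by
    rw [Set.disjoint_left]
    intro x hx hx'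
    rw [hQ] at hx
    rw [hQ'] at hx'
    exact hx'.2 hx.2
  have hcov : Zᶜ ⊆ Q ∪ Q' := by
    intro x hx
    by_cases h : ∃ (L : Set ℂ) (a : ℂ → ℝ), Cut L x a ∧ L ⊆ Zᶜ
    · left; rw [hQ]; exact ⟨hx, h⟩
    · right; rw [hQ']; exact ⟨hx, h⟩
  have hne : (Zᶜ ∩ Q).Nonempty := by
    obtain ⟨x, hx, hx'⟩ := hfar
    exact ⟨x, hx, by rw [hQ]; exact ⟨hx, hx'⟩⟩
  have hsub := hcon.subset_left_of_subset_union hQo hQo' hdis hcov hne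
  have := hsub hp
  rw [hQ] at this
  exact this.2

end ICP
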