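import Pool.Agent.Work.MP_065151_ic.Interface

/-!
# Block DAX: existence of the argument of `(ψ w - x) / w`
-/

set_option autoImplicit false

open Topology Metric Filter Set

namespace ICP

open R4C (f K Bot)

/-- A holomorphic function without zeros on the unit ball has a continuous logarithm. -/
theorem DAX_log {F : ℂ → ℂ} (hF : DifferentiableOn ℂ F (ball (0 : ℂ) 1))
    (h0 : ∀ z ∈ ball (0 : ℂ) 1, F z ≠ 0) :
    ∃ G : ℂ → ℂ, ContinuousOn G (ball (0 : ℂ) 1) ∧ ∀ z ∈ ball (0 : ℂ) 1, Complex.exp (G z) = F z := by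
  have hx : (0 : ℂ) ∈ ball (0 : ℂ) 1 := mem_ball_self one_pos
  have hdF : DifferentiableOn ℂ (deriv F) (ball (0 : ℂ) 1) := hF.deriv isOpen_ball
  have hq : DifferentiableOn ℂ (fun z => deriv F z / F z) (ball (0 : ℂ) 1) := hdF.div hF h0
  obtain ⟨G, hGx, hG⟩ := hq.isExactOn_ball.with_val_at (0 : ℂ) (Complex.log (F 0))
  have hexp : ∀ z ∈ ball (0 : ℂ) 1, Complex.exp (G z) = F z := by
    have hder : ∀ z ∈ ball (0 : ℂ) 1,
        HasDerivAt (fun z => Complex.exp (-G z) * F z) 0 z := by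
      intro z hz
      have h1 : HasDerivAt F (deriv F z) z :=
        (hF.differentiableAt (isOpen_ball.mem_nhds hz)).hasDerivAt
      have h2 := ((hG z hz).fun_neg.cexp).mul h1
      have h3 : Complex.exp (-G z) * -(deriv F z / F z) * F z + Complex.exp (-G z) * deriv F z = 0 := by
        field_simp [h0 z hz]
        ring
      rw [h3] at h2
      exact h2
    intro z hz
    have h4 : (fun z => Complex.exp (-G z) * F z) z = (fun z => Complex.exp (-G z) * F z) 0 := by
      apply IsOpen.is_const_of_deriv_eq_zero isOpen_ball (convex_ball _ _).isPreconnected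
        (fun z hz => (hder z hz).differentiableAt.differentiableWithinAt)
        (fun z hz => (hder z hz).deriv) hz hx
    simp only at h4
    rw [hGx, Complex.exp_neg, Complex.exp_neg, Complex.exp_log (h0 0 hx),
      inv_mul_cancel₀ (h0 0 hx)] at h4
    rw [inv_mul_eq_div, div_eq_one_iff_eq (Complex.exp_ne_zero _)] at h4
    exact h4.symm
  exact ⟨G, fun z hz => (hG z hz).continuousAt.continuousWithinAt, hexp⟩

theorem DAX_Ag (g : ℂ) : Ag (Complex.exp g) g.im := by
  unfold Ag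
  rw [Complex.norm_exp, Complex.ofReal_exp, ← Complex.exp_add, Complex.re_add_im]

theorem p_DAX : Stmt_DAX := by
  intro c ψ hψ x hx
  have hinv : ∀ w : ℂ, 1 < ‖w‖ → w⁻¹ ∈ ball (0 : ℂ) 1 := by
    intro w hw
    rw [mem_ball_zero_iff, norm_inv]
    exact inv_lt_one_of_one_lt₀ hw
  have hinv' : ∀ u : ℂ, u ∈ ball (0 : ℂ) 1 → u ≠ 0 → 1 < ‖u⁻¹‖ := by
    intro u hu hu0
    rw [mem_ball_zero_iff] at hu
    rw [norm_inv]
    exact (one_lt_inv₀ (norm_pos_iff.2 hu0)).2 hu
  have hnK : ∀ w : ℂ, 1 < ‖w‖ → ψ w ∉ K c := by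
    intro w hw
    have : ψ w ∈ (K c)ᶜ := by
      rw [← hψ.img]
      exact ⟨w, hw, rfl⟩
    exact this
  classical
  let h : ℂ → ℂ := fun u => if u = 0 then 1 else (ψ (u⁻¹) - x) * u
  have hh : ∀ u : ℂ, u ≠ 0 → h u = (ψ (u⁻¹) - x) * u := fun u hu => if_neg hu
  have hh0 : h 0 = 1 := if_pos rfl
  have hd : DifferentiableOn ℂ h (ball (0 : ℂ) 1 \ {0}) := by
    have h1 : DifferentiableOn ℂ (fun u : ℂ => (ψ (u⁻¹) - x) * u) (ball (0 : ℂ) 1 \ {0}) := by
      have h2 : DifferentiableOn ℂ (fun u : ℂ => ψ (u⁻¹)) (ball (0 : ℂ) 1 \ {0}) := by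
        apply hψ.hol.comp (g := ψ) (f := fun u : ℂ => u⁻¹)
        · exact differentiableOn_inv.mono fun u hu => hu.2
        · intro u hu
          exact hinv' u hu.1 hu.2
      exact (h2.sub_const x).mul differentiableOn_id
    exact h1.congr fun u hu => hh u hu.2
  have hc : ContinuousAt h 0 := by
    rw [continuousAt_iff_punctured_nhds, hh0]
    have h1 : Tendsto (fun u : ℂ => ψ (u⁻¹) / u⁻¹) (𝓝[≠] 0) (𝓝 1) :=
      hψ.inf.comp tendsto_inv₀_nhdsNE_zero
    have h2 : Tendsto (fun u : ℂ => x * u) (𝓝[≠] 0) (𝓝 0) := by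
      have h3 : Tendsto (fun u : ℂ => x * u) (𝓝 0) (𝓝 (x * 0)) :=
        (continuous_const.mul continuous_id).tendsto 0
      rw [mul_zero] at h3
      exact h3.mono_left nhdsWithin_le_nhds
    have h4 := h1.sub h2
    rw [sub_zero] at h4
    refine h4.congr' ?_
    filter_upwards [self_mem_nhdsWithin] with u hu
    have hu0 : u ≠ 0 := hu
    rw [hh u hu0]
    field_simp
  have hdiff : DifferentiableOn ℂ h (ball (0 : ℂ) 1) :=
    (Complex.differentiableOn_compl_singleton_and_continuousAt_iff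
      (isOpen_ball.mem_nhds (mem_ball_self one_pos))).1 ⟨hd, hc⟩
  have hne : ∀ z ∈ ball (0 : ℂ) 1, h z ≠ 0 := by
    intro z hz
    by_cases h0 : z = 0
    · rw [h0, hh0]
      exact one_ne_zero
    · rw [hh z h0]
      refine mul_ne_zero ?_ h0
      rw [sub_ne_zero]
      intro he
      exact hnK _ (hinv' z hz h0) (he ▸ hx)
  obtain ⟨G, hG, hexp⟩ := DAX_log hdiff hne
  refine ⟨fun w => (G (w⁻¹)).im, ⟨?_, ?_⟩, ?_⟩
  · have h1 : ContinuousOn (fun w : ℂ => G (w⁻¹)) {w | 1 < ‖w‖} := by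
      apply hG.comp (g := G) (f := fun w : ℂ => w⁻¹)
      · intro w hw
        have hw0 : w ≠ 0 := by
          rintro rfl
          have hw' : (1 : ℝ) < ‖(0 : ℂ)‖ := hw
          rw [norm_zero] at hw'
          linarith
        exact (continuousAt_inv₀ hw0).continuousWithinAt
      · intro w hw
        exact hinv w hw
    exact Complex.continuous_im.comp_continuousOn h1
  · intro w hw
    have hw0 : w ≠ 0 := by
      rintro rfl
      rw [norm_zero] at hw
      linarith
    have h1 : (ψ w - x) / w = Complex.exp (G (w⁻¹)) := by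
      rw [hexp _ (hinv w hw), hh _ (inv_ne_zero hw0), inv_inv, div_eq_mul_inv]
    rw [h1]
    exact DAX_Ag _
  · have hK : IsCompact (closedBall (0 : ℂ) (1 / 2)) := isCompact_closedBall _ _
    have hsub : closedBall (0 : ℂ) (1 / 2) ⊆ ball (0 : ℂ) 1 :=
      closedBall_subset_ball (by norm_num)
    obtain ⟨M, hM⟩ := hK.exists_bound_of_continuousOn (hG.mono hsub)
    refine ⟨M, fun w hw => ?_⟩
    have h1 : w⁻¹ ∈ closedBall (0 : ℂ) (1 / 2) := by
      rw [mem_closedBall_zero_iff, norm_inv, one_div]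
      exact inv_anti₀ (by norm_num) hw
    exact (Complex.abs_im_le_norm _).trans (hM _ h1)

end ICP
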