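import Pool.Agent.Work.MP_065151_ic.Interface

/-!
# Block DEN: accessible points are dense
-/

set_option autoImplicit false

open Topology Metric Filter Set

namespace ICP

theorem p_DEN : Stmt_DEN := by
  intro Z hZ hint F hF hacc y hy
  by_contra hyF
  obtain ⟨ε, hε, hball⟩ := Metric.isOpen_iff.1 hF.isOpen_compl y hyF
  obtain ⟨y', hy'b, hy'Z⟩ : ∃ y' ∈ ball y ε, y' ∉ Z := by
    by_contra hcon
    push Not at hcon
    have h1 : y ∈ interior Z := mem_interior.2 ⟨ball y ε, hcon, isOpen_ball, mem_ball_self hε⟩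
    rw [hint] at h1
    exact h1
  have hcont : Continuous (fun t : ℝ => y' + (t : ℂ) * (y - y')) := by fun_prop
  have hcpt : IsCompact (Icc (0 : ℝ) 1 ∩ (fun t : ℝ => y' + (t : ℂ) * (y - y')) ⁻¹' Z) :=
    isCompact_Icc.inter_right (hZ.isClosed.preimage hcont)
  have hne : (Icc (0 : ℝ) 1 ∩ (fun t : ℝ => y' + (t : ℂ) * (y - y')) ⁻¹' Z).Nonempty := by
    refine ⟨1, ⟨zero_le_one, le_rfl⟩, ?_⟩
    change y' + ((1 : ℝ) : ℂ) * (y - y') ∈ Z
    rw [Complex.ofReal_one, one_mul, add_sub_cancel]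
    exact hy
  obtain ⟨t0, ⟨ht0I, ht0Z⟩, ht0min⟩ := hcpt.exists_isLeast hne
  have ht0Z' : y' + (t0 : ℂ) * (y - y') ∈ Z := ht0Z
  have ht0 : 0 < t0 := by
    rcases ht0I.1.lt_or_eq with h | h
    · exact h
    · exfalso
      rw [← h, Complex.ofReal_zero, zero_mul, add_zero] at ht0Z'
      exact hy'Z ht0Z'
  have hζF : y' + (t0 : ℂ) * (y - y') ∉ F := by
    apply hball
    rw [mem_ball, dist_eq_norm]
    have e1 : y' + (t0 : ℂ) * (y - y') - y = ((1 - t0 : ℝ) : ℂ) * (y' - y) := by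
      push_cast
      ring
    rw [e1, norm_mul, Complex.norm_real, Real.norm_of_nonneg (by linarith [ht0I.2])]
    rw [mem_ball, dist_eq_norm] at hy'b
    have h2 : (1 - t0) * ‖y' - y‖ ≤ 1 * ‖y' - y‖ :=
      mul_le_mul_of_nonneg_right (by linarith) (norm_nonneg _)
    linarith
  refine hζF (hacc _ ⟨ht0Z', y', fun s hs hs1 hmem => ?_⟩)
  have e2 : y' + (t0 : ℂ) * (y - y') + (s : ℂ) * (y' - (y' + (t0 : ℂ) * (y - y'))) =
      y' + (((1 - s) * t0 : ℝ) : ℂ) * (y - y') := by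
    push_cast
    ring
  rw [e2] at hmem
  have h3 : 0 ≤ (1 - s) * t0 := mul_nonneg (by linarith) ht0.le
  have h4 : t0 ≤ (1 - s) * t0 := ht0min ⟨⟨h3, by nlinarith [ht0I.2]⟩, hmem⟩
  nlinarith

end ICP
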