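import Pool.Agent.Work.MP_065151_ic.Interface

/-!
# MP_065151_an, the irreducible critical pair, block DIS
-/

set_option autoImplicit false

open Topology Metric Filter Set

namespace ICP

open R4C (f K Bot)

theorem p_DIS (hREC : Stmt_REC) : Stmt_DIS := by
  intro c h0K hi hrec H hHc hHp hHK hHne h0H hmeet
  obtain ⟨z0, hz0, hz0'⟩ := hmeet
  have hfc := HH.f_cont c
  have hfH : IsCompact (f c '' H) := hHc.image hfc
  have hfK : f c '' H ⊆ K c := by
    rintro _ ⟨z, hz, rfl⟩
    exact (HH.f_mem_K c z).2 (hHK hz)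
  have hc1 : c ∈ f c '' H := ⟨0, h0H, by simp [f]⟩
  by_cases hall : K c ⊆ H ∪ f c '' H
  · by_cases hB : K c ⊆ f c '' H
    · refine ⟨H, hHc, hHp, hHK, hHne, fun z hz => ?_⟩
      obtain ⟨h, hh, he⟩ := hB ((HH.f_mem_K c z).2 hz)
      rcases HH.f_eq he with h1 | h1
      · left
        rw [← h1]
        exact hh
      · right
        rw [← h1]
        exact hh
    · exact HH.decomp_half hi hHc hHp hHK hfH.isClosed hall hHne hB
  · refine hREC c h0K hi hrec (H ∪ f c '' H) (hHc.union hfH)
      (hHp.union z0 hz0 hz0' (hHp.image _ hfc.continuousOn)) (Set.union_subset hHK hfK) hall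
      (Or.inr hc1) (Or.inl h0H)

end ICP
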