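import Pool.Agent.Work.MP_065151_ic.Interface

/-!
# MP_065151_an, the irreducible critical pair, block DSQ
-/

set_option autoImplicit false

open Topology Metric Filter Set

namespace ICP

open R4C (f K Bot)

theorem p_DSQ : Stmt_DSQ := by
  intro c ψ hB x hx D D' D'' hD hD' hD''
  have hnK : ∀ w : ℂ, 1 < ‖w‖ → ψ w ∉ K c := by
    intro w hw
    have h : ψ w ∈ ψ '' {w | 1 < ‖w‖} := ⟨w, hw, rfl⟩
    rw [hB.img] at h
    exact h
  have hsq : ∀ w : ℂ, 1 < ‖w‖ → 1 < ‖w ^ 2‖ := by
    intro w hw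
    rw [norm_pow]
    nlinarith
  have hx' : -x ∈ K c := (HH.neg_mem_K c x).2 hx
  refine lcd HH.isConnected_outside.isPreconnected (a := fun w => D'' (w ^ 2))
    (b := fun w => D w + D' w) ?_ (hD.cont.add hD'.cont) ?_
  · exact hD''.cont.comp (continuous_pow 2).continuousOn (fun w hw => hsq w hw)
  · intro w hw
    have hw0 : w ≠ 0 := by
      rintro rfl
      have : (1 : ℝ) < ‖(0 : ℂ)‖ := hw
      simp at this
      linarith
    have h1 : ψ w - x ≠ 0 := fun h => hnK w hw (by rw [sub_eq_zero.mp h]; exact hx)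
    have h2 : ψ w - -x ≠ 0 := fun h => hnK w hw (by rw [sub_eq_zero.mp h]; exact hx')
    have e : ((ψ w - x) / w) * ((ψ w - -x) / w) = (ψ (w ^ 2) - f c x) / w ^ 2 := by
      rw [hB.eqn w hw]
      unfold f
      field_simp
      ring
    have hA := ((hD.arg w hw).mul (hD'.arg w hw)).congr e
    have hne : (ψ (w ^ 2) - f c x) / w ^ 2 ≠ 0 := by
      rw [← e]
      exact mul_ne_zero (div_ne_zero h1 hw0) (div_ne_zero h2 hw0)
    exact Ag.unique hne (hD''.arg (w ^ 2) (hsq w hw)) hA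

end ICP
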