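import Pool.Agent.Work.MP_065151_ic.Interface

/-! # MP_065151_an, block EIN -/

set_option autoImplicit false

open Topology Metric Filter Set

namespace ICP

theorem EIN_pre (R : ℝ) (hR : 0 < R) : IsPreconnected {z : ℂ | R < ‖z‖} := by
  have h := HH.isConnected_outside.isPreconnected.image (fun w : ℂ => (R : ℂ) * w)
    (by fun_prop)
  convert h using 1
  ext z
  constructor
  · intro hz
    have hz : R < ‖z‖ := hz
    refine ⟨(R : ℂ)⁻¹ * z, ?_, ?_⟩
    · show 1 < ‖(R : ℂ)⁻¹ * z‖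
      rw [norm_mul, norm_inv, Complex.norm_real, Real.norm_of_nonneg hR.le, inv_mul_eq_div,
        one_lt_div hR]
      exact hz
    · show (R : ℂ) * ((R : ℂ)⁻¹ * z) = z
      rw [← mul_assoc, mul_inv_cancel₀ (by exact_mod_cast hR.ne'), one_mul]
  · rintro ⟨w, hw, rfl⟩
    have hw : 1 < ‖w‖ := hw
    show R < ‖(R : ℂ) * w‖
    rw [norm_mul, Complex.norm_real, Real.norm_of_nonneg hR.le]
    nlinarith

theorem p_EIN : Stmt_EIN := by
  intro Z x y E hZ hPL
  obtain ⟨R₀, hR₀⟩ := hZ.isBounded.subset_ball (0 : ℂ)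
  set R : ℝ := max (max R₀ 1) (‖y - x‖ + ‖y‖ + 1) with hR
  have hR1 : 1 ≤ R := le_trans (le_max_right _ _) (le_max_left _ _)
  have hR2 : R₀ ≤ R := le_trans (le_max_left _ _) (le_max_left _ _)
  have hR3 : ‖y - x‖ + ‖y‖ + 1 ≤ R := le_max_right _ _
  have hRpos : 0 < R := by linarith
  have hout : ∀ z : ℂ, R ≤ ‖z‖ → z ∉ Z := by
    intro z hz hzZ
    have := hR₀ hzZ
    rw [mem_ball_zero_iff] at this
    linarith
  have hyz : ∀ z : ℂ, R ≤ ‖z‖ → ‖y - x‖ < ‖z - y‖ := by
    intro z hz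
    have h1 : ‖z‖ ≤ ‖z - y‖ + ‖y‖ := by
      calc ‖z‖ = ‖(z - y) + y‖ := by ring_nf
        _ ≤ _ := norm_add_le _ _
    linarith
  have hne : ∀ z : ℂ, R ≤ ‖z‖ → z - y ≠ 0 := by
    intro z hz h0
    have := hyz z hz
    rw [h0, norm_zero] at this
    exact absurd this (not_lt.mpr (norm_nonneg _))
  have hslit : ∀ z : ℂ, R ≤ ‖z‖ → (z - x) / (z - y) ∈ Complex.slitPlane := by
    intro z hz
    have h1 : (z - x) / (z - y) = 1 + (y - x) / (z - y) := by
      field_simp [hne z hz]
      ring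
    rw [h1]
    apply Complex.mem_slitPlane_of_norm_lt_one
    rw [norm_div, div_lt_one (norm_pos_iff.mpr (hne z hz))]
    exact hyz z hz
  obtain ⟨n, hn⟩ := lcd (EIN_pre R hRpos) (a := E) (b := fun z => ((z - x) / (z - y)).arg)
    (hPL.cont.mono (fun z hz => hout z (le_of_lt hz)))
    (by
      intro z hz
      have hz : R < ‖z‖ := hz
      have h1 : ContinuousAt (fun z : ℂ => (z - x) / (z - y)) z := by
        have := hne z hz.le
        fun_prop (disch := assumption)
      have h2 : ContinuousAt (fun z : ℂ => ((z - x) / (z - y)).arg) z :=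
        ContinuousAt.comp' (g := Complex.arg) (Complex.continuousAt_arg (hslit z hz.le)) h1
      exact h2.continuousWithinAt)
    (by
      intro z hz
      have hz : R < ‖z‖ := hz
      exact Ag.unique (Complex.slitPlane_ne_zero (hslit z hz.le)) (hPL.arg z (hout z hz.le))
        (Ag_arg _))
  refine ⟨R + 1, |2 * Real.pi * n| + Real.pi, fun z hz => ⟨hout z (by linarith), ?_⟩⟩
  have h1 := hn z (show R < ‖z‖ by linarith)
  have h2 : E z = 2 * Real.pi * n + ((z - x) / (z - y)).arg := by linarith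
  rw [h2]
  refine (abs_add_le _ _).trans ?_
  have := Complex.abs_arg_le_pi ((z - x) / (z - y))
  linarith

end ICP
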