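import Pool.Agent.Work.MP_065151_ic.Interface

/-!
# MP_065151_an, the irreducible critical pair, block EQH
-/

set_option autoImplicit false

open Topology Metric Filter Set

namespace ICP

open R4C (f K Bot)

theorem p_EQH : Stmt_EQH := by
  intro c hc h0 hJ φ hφ
  have hi := HH.interior_empty hJ
  have hB := HH.bo_of_bottcher hφ
  have hJK : HH.julia c = K c := by rw [hJ, HH.filledJulia_eq]
  constructor
  · intro ht
    rintro ⟨T, hT⟩
    obtain ⟨β, -, -, htfae⟩ := HH.thmB hc h0 hJ hφ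
    obtain ⟨hx, hy, hxy⟩ := (htfae.out 0 3).1 ht
    rw [hJK] at hx hy hxy
    rw [HH.filledJulia_eq] at h0
    refine hc (HH.irr_forces h0 hi (x := c) (y := β) ⟨hx, hy, fun S h1 h2 h3 h4 h5 => ?_⟩ hT)
    rw [hxy S h3 h1 ⟨⟨c, h4⟩, h2⟩ h4 h5]
  · intro hno
    obtain ⟨t, ht⟩ := HH.exists_dense_ray hB hi fun T hT => hno ⟨T, hT⟩
    refine ⟨t, ?_⟩
    rw [hJK]
    exact Set.Subset.antisymm (HH.principal_sub hB t) fun z hz => HH.mem_principal hB (ht hz) hz

end ICP
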