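import Pool.Agent.Work.MP_065151_ic.Interface

set_option autoImplicit false

open Topology Metric Filter Set

namespace ICP

open R4C (f K Bot)

theorem EXZ_pull {c : ℂ} {H : Set ℂ} (hsub : f c ⁻¹' H ⊆ H) (n : ℕ) : ∀ u : ℂ, (f c)^[n] u ∈ H → u ∈ H := by
  induction n with
  | zero => intro u hu; exact hu
  | succ n ih =>
    intro u hu
    rw [Function.iterate_succ_apply] at hu
    exact hsub (ih _ hu)

theorem p_EXZ (hDEN : Stmt_DEN) : Stmt_EXZ := by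
  intro c h0 hi H hHc _ hHK hnot _ h0H hcase
  have hZc : IsCompact (H ∪ f c ⁻¹' H) := hHc.union (HH.preimage_compact c hHc)
  have hZK : H ∪ f c ⁻¹' H ⊆ K c := union_subset hHK fun z hz => (HH.f_mem_K c z).1 (hHK hz)
  have hZi : interior (H ∪ f c ⁻¹' H) = ∅ := by
    apply subset_empty_iff.1
    rw [← hi]
    exact interior_mono hZK
  have hnp : ¬ f c ⁻¹' H ⊆ H := by
    intro hsub
    obtain ⟨z, hzK, hzH⟩ := not_subset.1 hnot
    obtain ⟨ρ, hρ, hball⟩ := Metric.isOpen_iff.1 hHc.isClosed.isOpen_compl z hzH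
    obtain ⟨n, hn⟩ := HH.leo hi hρ hzK
    obtain ⟨u, hu, hu0⟩ := hn h0
    have : u ∈ H := EXZ_pull hsub n u (by rw [hu0]; exact h0H)
    exact hball hu this
  have hex : ∃ ζ', Acc (H ∪ f c ⁻¹' H) ζ' ∧ ζ' ∉ H := by
    by_contra hcon
    push Not at hcon
    have hZH := hDEN _ hZc hZi H hHc.isClosed hcon
    exact hnp (subset_union_right.trans hZH)
  obtain ⟨ζ', hacc', hζ'⟩ := hex
  have hfz : f c ζ' ∈ H := hacc'.1.resolve_left hζ'
  by_cases hx : ∃ ζ, Acc (H ∪ f c ⁻¹' H) ζ ∧ ζ ∈ H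
  · obtain ⟨ζ, hζ, hζH⟩ := hx
    exact ⟨ζ, ζ', hζH, hfz, hζ, hacc'⟩
  · push Not at hx
    have hZp := hDEN _ hZc hZi (f c ⁻¹' H) (hHc.isClosed.preimage (HH.f_cont c))
      fun ζ hζ => hζ.1.resolve_left (hx ζ hζ)
    have himg : f c '' H ⊆ H := by
      rintro _ ⟨h, hh, rfl⟩
      exact hZp (Or.inl hh)
    have heq : f c '' H = H := hcase.resolve_left fun h => h himg
    rw [← heq] at hfz
    obtain ⟨h, hh, hhe⟩ := hfz
    rcases HH.f_eq hhe with h1 | h1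
    · exact absurd (h1 ▸ hh) hζ'
    · have hneg : -ζ' ∈ H := h1 ▸ hh
      obtain ⟨p, hp⟩ := hacc'.2
      refine absurd hneg (hx (-ζ') ⟨Or.inl hneg, -p, fun s hs0 hs1 hmem => ?_⟩)
      have h2 : f c (-ζ' + s * (-p - -ζ')) ∈ H := hZp hmem
      have h3 : -ζ' + s * (-p - -ζ') = -(ζ' + s * (p - ζ')) := by ring
      rw [h3, HH.f_neg] at h2
      exact hp s hs0 hs1 (Or.inr h2)

end ICP
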