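import Pool.Agent.Work.MP_065151_ic.Interface

/-! # Block FAR -/

set_option autoImplicit false

open Topology Metric Filter Set

namespace ICP

theorem p_FAR : Stmt_FAR := by
  intro Z hZ
  obtain ⟨R0, hR0⟩ := hZ.subset_closedBall 0
  refine ⟨max R0 0, fun p hp => ?_⟩
  have hp0 : 0 < ‖p‖ := lt_of_le_of_lt (le_max_right _ _) hp
  have hpne : p ≠ 0 := norm_pos_iff.1 hp0
  have hnp : -p ≠ 0 := neg_ne_zero.2 hpne
  refine ⟨{z | (z / p).im = 0 ∧ 1 ≤ (z / p).re},
    fun z => Complex.arg ((z - p) / (-p)) + Complex.arg (-p), ⟨?_, ?_, ?_, ?_, ?_⟩, ?_⟩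
  · have h1 : IsClosed {z : ℂ | (z / p).im = 0} :=
      isClosed_eq (Complex.continuous_im.comp (continuous_id.div_const p)) continuous_const
    have h2 : IsClosed {z : ℂ | 1 ≤ (z / p).re} :=
      isClosed_le continuous_const (Complex.continuous_re.comp (continuous_id.div_const p))
    exact h1.inter h2
  · show (p / p).im = 0 ∧ 1 ≤ (p / p).re
    rw [div_self hpne]
    simp
  · refine ⟨Real.pi + Real.pi, fun z => ?_⟩
    exact (abs_add_le _ _).trans (add_le_add (Complex.abs_arg_le_pi _) (Complex.abs_arg_le_pi _))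
  · intro z hz
    apply ContinuousAt.continuousWithinAt
    refine ContinuousAt.add ?_ continuousAt_const
    have hs : (z - p) / (-p) ∈ Complex.slitPlane := by
      have h1 : (z - p) / (-p) = 1 - z / p := by
        field_simp
        ring
      rw [h1, Complex.mem_slitPlane_iff]
      by_cases him : (z / p).im = 0
      · left
        have h2 : ¬ 1 ≤ (z / p).re := fun h => hz ⟨him, h⟩
        rw [Complex.sub_re, Complex.one_re]
        linarith [not_le.1 h2]
      · right
        rw [Complex.sub_im, Complex.one_im]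
        intro h
        apply him
        linarith
    exact (Complex.continuousAt_arg hs).comp
      (f := fun z : ℂ => (z - p) / (-p)) (by fun_prop)
  · intro z _
    refine ((Ag_arg ((z - p) / (-p))).mul (Ag_arg (-p))).congr ?_
    exact div_mul_cancel₀ _ hnp
  · rintro z ⟨-, hz2⟩ hzZ
    have h1 : ‖z‖ ≤ R0 := mem_closedBall_zero_iff.1 (hR0 hzZ)
    have h2 : 1 ≤ ‖z / p‖ := hz2.trans (Complex.re_le_norm _)
    rw [norm_div, one_le_div hp0] at h2
    linarith [le_max_left R0 0]

end ICP
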