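import Pool.Agent.Work.MP_065151_ic.Interface

/-!
# Block GHF: a half exists
-/

set_option autoImplicit false

open Topology Metric Filter Set

namespace ICP

open R4C (f K Bot)

theorem GHF_Bo {c : ℂ} {ψ : ℂ → ℂ} (h : Bot c ψ) : HH.Bo c ψ := by
  refine ⟨h.hol, h.inj, h.img, h.eqn, ?_⟩
  rw [← tendsto_norm_atTop_iff_cobounded]
  have h2 : ∀ᶠ w in Bornology.cobounded ℂ, ψ w / w ∈ ball (1 : ℂ) (1 / 2) :=
    h.inf (ball_mem_nhds _ (by norm_num))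
  have h3 : Tendsto (fun w : ℂ => ‖w‖ / 2) (Bornology.cobounded ℂ) atTop :=
    tendsto_norm_cobounded_atTop.atTop_div_const (by norm_num)
  refine tendsto_atTop_mono' _ ?_ h3
  have h4 : ∀ᶠ w : ℂ in Bornology.cobounded ℂ, 0 < ‖w‖ :=
    tendsto_norm_cobounded_atTop.eventually_gt_atTop 0
  filter_upwards [h2, h4] with w hw hw0
  rw [mem_ball, dist_eq_norm] at hw
  have h5 : 1 / 2 ≤ ‖ψ w / w‖ := by
    have : ‖(1 : ℂ)‖ ≤ ‖ψ w / w‖ + ‖ψ w / w - 1‖ := by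
      have h6 := norm_sub_norm_le (1 : ℂ) (ψ w / w)
      rw [norm_sub_rev] at h6
      linarith
    rw [norm_one] at this
    linarith
  rw [norm_div, le_div_iff₀ hw0] at h5
  linarith

theorem p_GHF (hCMP : Stmt_CMP) (hEXZ : Stmt_EXZ) (hBL1 : Stmt_BL1) (hBL2 : Stmt_BL2)
    (hDAX : Stmt_DAX) : Stmt_GHF := by
  intro c h0 hi H hH hHc hHK hne hcH h0H hcase
  by_contra hno
  have hno' : ∀ T, ¬ HH.Half c T := fun T hT => hno ⟨T, hT⟩
  obtain ⟨ψ, hB⟩ := R4C.stmt_BOT R4C.stmt_ELM c h0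
  have hBo : HH.Bo c ψ := GHF_Bo hB
  obtain ⟨b, hb, hlim⟩ := HH.land hBo
  by_cases hbH : b ∈ H
  · obtain ⟨A, hA, hAc, hAK, hAB, -⟩ := HH.crit_ray hBo h0 hH hHc hcH hHK
      (Set.not_subset.1 hne) (t0 := 0)
      ((HH.principal_zero hBo hlim).trans (Set.singleton_subset_iff.2 hbH))
    have hsub : A ⊆ K c := by
      rw [← hAB]
      exact Set.subset_union_left
    refine hno' A ⟨hA, hAc.isPreconnected, hsub, fun h1 => hAK (Set.Subset.antisymm hsub h1),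
      fun z hz => ?_⟩
    rw [← hAB] at hz
    exact hz
  · obtain ⟨t, ht⟩ := HH.exists_dense_ray hBo hi hno'
    obtain ⟨ζ, ζ', hζ, hζ', ha, ha'⟩ := hEXZ c h0 hi H hH hHc hHK hne hcH h0H hcase
    obtain ⟨D, hD, -⟩ := hDAX c ψ hB ζ (hHK hζ)
    have hbd := hCMP c ψ hB h0 hi H hH hHc hHK hcH h0H ζ ζ' hζ hζ' ha ha' D hD
    obtain ⟨r, hr, μ, M, hμ⟩ := hBL1 c ψ hB h0 hi H hH hHc hHK hcH h0H b hb hbH ζ hζ D hD hbd
    obtain ⟨N, hN, hbN, hre⟩ := hBL2 c ψ hB b r M μ hb hr hμ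
    have hbK : b ∈ K c := HH.fixed_mem_K hb
    have hbK' : -b ∈ K c := (HH.neg_mem_K c b).2 hbK
    obtain ⟨_, hx1, ⟨r1, hr1, rfl⟩⟩ := mem_closure_iff.1 (ht hbK) N hN hbN
    obtain ⟨_, hx2, ⟨r2, hr2, rfl⟩⟩ := mem_closure_iff.1 (ht hbK') (Neg.neg ⁻¹' N)
      (hN.preimage continuous_neg) (by rw [Set.mem_preimage, neg_neg]; exact hbN)
    have hr1 : 1 < r1 := hr1
    have hr2 : 1 < r2 := hr2
    have hx1 : ψ ((r1 : ℂ) * Complex.exp (2 * Real.pi * Complex.I * t)) ∈ N := hx1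
    have hx2 : -ψ ((r2 : ℂ) * Complex.exp (2 * Real.pi * Complex.I * t)) ∈ N := hx2
    have hw2 := HH.pol_gt hr2 t
    rw [← hB.odd _ hw2] at hx2
    have e1 := hre _ (HH.pol_gt hr1 t) hx1
    have e2 := hre _ (by rw [norm_neg]; exact hw2) hx2
    rw [Complex.neg_re, Complex.re_ofReal_mul] at e2
    rw [Complex.re_ofReal_mul] at e1
    have e3 : 0 < (Complex.exp (2 * Real.pi * Complex.I * t)).re :=
      pos_of_mul_pos_right e1 (by linarith)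
    have e4 : 0 < r2 * (Complex.exp (2 * Real.pi * Complex.I * t)).re :=
      mul_pos (by linarith) e3
    linarith

end ICP
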