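import Pool.Agent.Work.MP_065151_ic.Interface

set_option autoImplicit false

open Topology Metric Filter Set

namespace ICP

open R4C (f K Bot)

theorem p_HAC : Stmt_HAC := by
  intro c h0 T hT x hx
  have himg : ∀ T' : Set ℂ, HH.Half c T' → f c '' T' = K c := by
    intro T' hT'
    apply Set.Subset.antisymm
    · rintro _ ⟨z, hz, rfl⟩
      exact (HH.f_mem_K c z).2 (hT'.sub hz)
    · intro z hz
      obtain ⟨u, hu⟩ := HH.f_surj c z
      have huK : u ∈ K c := by
        rw [← HH.f_mem_K c u, hu]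
        exact hz
      rcases hT'.cov u huK with h | h
      · exact ⟨u, h, hu⟩
      · exact ⟨-u, h, by rw [HH.f_neg, hu]⟩
  rcases hT.cov x hx with h | h
  · exact ⟨T, hT, hT.zero h0, h, himg T hT⟩
  · exact ⟨HH.nH T, hT.neg, hT.neg.zero h0, h, himg _ hT.neg⟩

end ICP
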