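import Pool.Agent.Work.MP_065151_ic.Interface

set_option autoImplicit false

open Topology Metric Filter Set

namespace ICP

open R4C (f K Bot)

theorem p_NUM : Stmt_NUM := by
  intro D B M h1 h2
  have hB : 0 ≤ B := by
    have h3 := h1 2 (by norm_num)
    exact (abs_nonneg _).trans h3
  have hM : 0 ≤ M := by
    have h3 := h2 2 (by norm_num)
    exact (abs_nonneg _).trans h3
  have key : ∀ n : ℕ, ∀ w : ℂ, 1 < ‖w‖ → 2 ≤ ‖w‖ ^ 2 ^ n → |D w| ≤ M + B := by
    intro n
    induction n with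
    | zero =>
      intro w _ hw
      have h3 : 2 ≤ ‖w‖ := by simpa using hw
      linarith [h2 w h3]
    | succ n ih =>
      intro w hw1 hw
      have hw2 : 1 < ‖w ^ 2‖ := by
        rw [norm_pow]
        nlinarith
      have hw3 : 2 ≤ ‖w ^ 2‖ ^ 2 ^ n := by
        rw [norm_pow, ← pow_mul]
        have h4 : 2 * 2 ^ n = 2 ^ (n + 1) := by ring
        rw [h4]
        exact hw
      have h5 := ih (w ^ 2) hw2 hw3
      have h6 := h1 w hw1
      rw [abs_le] at h5 h6 ⊢
      constructor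
      · linarith [h5.1, h5.2, h6.1, h6.2]
      · linarith [h5.1, h5.2, h6.1, h6.2]
  refine ⟨M + B, fun w hw => ?_⟩
  have hw1 : 1 < ‖w‖ := hw
  obtain ⟨m, hm⟩ := pow_unbounded_of_one_lt 2 hw1
  refine key m w hw1 ?_
  refine hm.le.trans ?_
  exact pow_le_pow_right₀ hw1.le Nat.lt_two_pow_self.le

end ICP
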