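import Pool.Agent.Work.MP_065151_ic.Interface

set_option autoImplicit false

open Topology Metric Filter Set

namespace ICP

open R4C (f K Bot)

theorem p_REC (hGHF : Stmt_GHF) : Stmt_REC := by
  intro c h0K hi hrec H hHc hHp hHK hHne hcH h0H
  by_cases hsub : f c '' H ⊆ H
  swap
  · exact hGHF c h0K hi H hHc hHp hHK hHne hcH h0H (Or.inl hsub)
  have hmap : ∀ z ∈ H, f c z ∈ H := fun z hz => hsub ⟨z, hz, rfl⟩
  have hcont : ∀ k : ℕ, Continuous (f c)^[k] := fun k => (HH.f_cont c).iterate k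
  have hYc : ∀ k : ℕ, IsCompact ((f c)^[k] '' H) := fun k => hHc.image (hcont k)
  have hstep : ∀ k : ℕ, (f c)^[k + 1] '' H ⊆ (f c)^[k] '' H := by
    rintro k _ ⟨z, hz, rfl⟩
    exact ⟨f c z, hmap z hz, (Function.iterate_succ_apply _ _ _).symm⟩
  have horb : ∀ n : ℕ, (f c)^[n] 0 ∈ H := by
    intro n
    induction n with
    | zero => exact h0H
    | succ n ih =>
      rw [Function.iterate_succ_apply']
      exact hmap _ ih
  have horb2 : ∀ k n : ℕ, k ≤ n → (f c)^[n] 0 ∈ (f c)^[k] '' H := by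
    intro k n hkn
    obtain ⟨m, rfl⟩ := Nat.exists_eq_add_of_le hkn
    exact ⟨(f c)^[m] 0, horb m, (Function.iterate_add_apply (f c) k m 0).symm⟩
  set L : Set ℂ := ⋂ k, (f c)^[k] '' H with hL
  have hLsub : L ⊆ H := by
    intro z hz
    have h1 := Set.mem_iInter.1 hz 0
    simpa using h1
  have hLcl : IsClosed L := isClosed_iInter fun k => (hYc k).isClosed
  have hLc : IsCompact L := hHc.of_isClosed_subset hLcl hLsub
  have hLp : IsPreconnected L :=
    HH.conn_iInter (fun k => (f c)^[k] '' H) (antitone_nat_of_succ_le hstep) hYc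
      (fun k => hHp.image _ (hcont k).continuousOn)
  have hLf : f c '' L = L := by
    apply Set.Subset.antisymm
    · rintro _ ⟨z, hz, rfl⟩
      refine Set.mem_iInter.2 fun k => ?_
      obtain ⟨y, hy, rfl⟩ := Set.mem_iInter.1 hz k
      refine ⟨f c y, hmap y hy, ?_⟩
      rw [← Function.iterate_succ_apply, Function.iterate_succ_apply']
    · intro z hz
      have hcl1 : IsClosed (f c ⁻¹' {z}) := isClosed_singleton.preimage (HH.f_cont c)
      have hne := IsCompact.nonempty_iInter_of_sequence_nonempty_isCompact_isClosed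
        (fun k : ℕ => f c ⁻¹' {z} ∩ (f c)^[k] '' H)
        (fun k => Set.inter_subset_inter_right _ (hstep k))
        (fun k => ?_) ((hYc 0).inter_left hcl1)
        (fun k => hcl1.inter (hYc k).isClosed)
      · obtain ⟨y, hy⟩ := hne
        rw [Set.mem_iInter] at hy
        exact ⟨y, Set.mem_iInter.2 fun k => (hy k).2, (hy 0).1⟩
      · obtain ⟨y, hy, hyz⟩ := Set.mem_iInter.1 hz (k + 1)
        rw [Function.iterate_succ_apply'] at hyz
        exact ⟨(f c)^[k] y, hyz, ⟨y, hy, rfl⟩⟩
  have h0L : (0 : ℂ) ∈ L := by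
    refine Set.mem_iInter.2 fun k => ?_
    by_cases hper : ∃ n : ℕ, 1 ≤ n ∧ (f c)^[n] 0 = 0
    · obtain ⟨n, hn, hn0⟩ := hper
      have h1 : ∀ j : ℕ, (f c)^[n * j] 0 = 0 := by
        intro j
        induction j with
        | zero => simp
        | succ j ih => rw [Nat.mul_succ, Function.iterate_add_apply, hn0, ih]
      have h2 := horb2 k (n * k) (Nat.le_mul_of_pos_left k hn)
      rwa [h1 k] at h2
    · push Not at hper
      have hsub2 : {z | ∃ n : ℕ, 1 ≤ n ∧ (f c)^[n] 0 = z} ⊆
          ((fun n : ℕ => (f c)^[n] 0) '' Set.Icc 1 k) ∪ (f c)^[k] '' H := by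
        rintro z ⟨n, hn, rfl⟩
        rcases le_total k n with h | h
        · exact Or.inr (horb2 k n h)
        · exact Or.inl ⟨n, ⟨hn, h⟩, rfl⟩
      have hclosed : IsClosed (((fun n : ℕ => (f c)^[n] 0) '' Set.Icc 1 k) ∪ (f c)^[k] '' H) :=
        (((Set.finite_Icc 1 k).image _).isClosed).union (hYc k).isClosed
      rcases closure_minimal hsub2 hclosed hrec with h | h
      · obtain ⟨n, hn, hn0⟩ := h
        exact absurd hn0 (hper n hn.1)
      · exact h
  have hcL : c ∈ L := by
    rw [← hLf]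
    exact ⟨0, h0L, HH.f_zero c⟩
  exact hGHF c h0K hi L hLc hLp (hLsub.trans hHK) (fun h => hHne (h.trans hLsub)) hcL h0L
    (Or.inr hLf)

end ICP
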