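import Pool.Agent.Work.MP_065151_ic.Interface

/-! # Block SGP (helper25): the argument along a half open segment is bounded -/

set_option autoImplicit false

open Topology Metric Filter Set

namespace ICP

lemma SGP_one (ζ v x : ℂ) : ∃ δ : ℝ, 0 < δ ∧ ∃ a : ℝ → ℝ, ContinuousOn a (Ioo 0 δ) ∧
    (∀ s ∈ Ioo (0 : ℝ) δ, Ag (ζ + s * v - x) (a s)) ∧ ∀ s, |a s| ≤ 2 * Real.pi := by
  have hpi := Real.pi_pos
  by_cases hx : ζ - x = 0
  · refine ⟨1, one_pos, fun _ => v.arg, continuousOn_const, fun s hs => ?_, fun _ => ?_⟩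
    · have h1 : ζ + s * v - x = s * v := by linear_combination hx
      rw [h1]
      exact (Ag_arg v).pos_mul hs.1.le
    · have := Complex.abs_arg_le_pi v
      linarith
  · have hn : 0 < ‖v / (ζ - x)‖ + 1 := by positivity
    refine ⟨1 / (‖v / (ζ - x)‖ + 1), by positivity,
      fun s => (1 + s * (v / (ζ - x))).arg + (ζ - x).arg, ?_, fun s hs => ?_, fun s => ?_⟩
    · intro s hs
      have h1 : ‖(s : ℂ) * (v / (ζ - x))‖ < 1 := by
        rw [norm_mul, Complex.norm_real, Real.norm_of_nonneg hs.1.le]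
        have h2 := hs.2
        rw [lt_div_iff₀ hn] at h2
        have h3 := hs.1
        nlinarith
      have h2 : ContinuousAt (fun s : ℝ => 1 + (s : ℂ) * (v / (ζ - x))) s := by fun_prop
      have h3 : ContinuousAt (fun s : ℝ => (1 + (s : ℂ) * (v / (ζ - x))).arg) s :=
        ContinuousAt.comp (f := fun s : ℝ => 1 + (s : ℂ) * (v / (ζ - x)))
          (Complex.continuousAt_arg (Complex.mem_slitPlane_of_norm_lt_one h1)) h2
      exact (h3.add continuousAt_const).continuousWithinAt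
    · have h1 : ζ + s * v - x = (1 + s * (v / (ζ - x))) * (ζ - x) := by
        field_simp
        ring
      rw [h1]
      exact (Ag_arg _).mul (Ag_arg _)
    · have h1 := Complex.abs_arg_le_pi (1 + s * (v / (ζ - x)))
      have h2 := Complex.abs_arg_le_pi (ζ - x)
      have h3 := abs_add_le (1 + s * (v / (ζ - x))).arg (ζ - x).arg
      linarith

theorem p_SGP : Stmt_SGP := by
  intro ζ v x₁ x₂ y₁ y₂ e hv he h
  obtain ⟨δ₁, hδ₁, a₁, ha₁, hA₁, hb₁⟩ := SGP_one ζ v x₁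
  obtain ⟨δ₂, hδ₂, a₂, ha₂, hA₂, hb₂⟩ := SGP_one ζ v x₂
  obtain ⟨δ₃, hδ₃, a₃, ha₃, hA₃, hb₃⟩ := SGP_one ζ v y₁
  obtain ⟨δ₄, hδ₄, a₄, ha₄, hA₄, hb₄⟩ := SGP_one ζ v y₂
  obtain ⟨δ, hδ, hd₁, hd₂, hd₃, hd₄, hd⟩ :
      ∃ δ : ℝ, 0 < δ ∧ δ ≤ δ₁ ∧ δ ≤ δ₂ ∧ δ ≤ δ₃ ∧ δ ≤ δ₄ ∧ δ ≤ 1 := by
    refine ⟨min (min δ₁ δ₂) (min (min δ₃ δ₄) 1), by positivity, ?_, ?_, ?_, ?_, ?_⟩
    · exact (min_le_left _ _).trans (min_le_left _ _)
    · exact (min_le_left _ _).trans (min_le_right _ _)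
    · exact (min_le_right _ _).trans ((min_le_left _ _).trans (min_le_left _ _))
    · exact (min_le_right _ _).trans ((min_le_left _ _).trans (min_le_right _ _))
    · exact (min_le_right _ _).trans (min_le_right _ _)
  have hA : ContinuousOn (fun s => a₁ s + a₂ s - (a₃ s + a₄ s)) (Ioo 0 δ) :=
    ((ha₁.mono (Ioo_subset_Ioo_right hd₁)).add (ha₂.mono (Ioo_subset_Ioo_right hd₂))).sub
      ((ha₃.mono (Ioo_subset_Ioo_right hd₃)).add (ha₄.mono (Ioo_subset_Ioo_right hd₄)))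
  have he' : ContinuousOn e (Ioo 0 δ) := he.mono (fun s hs => ⟨hs.1, hs.2.le.trans hd⟩)
  obtain ⟨n, hn⟩ := lcd isPreconnected_Ioo he' hA (by
    intro s hs
    obtain ⟨h1, h2, h3, h4, h5⟩ := h s hs.1 (hs.2.le.trans hd)
    refine Ag.unique (div_ne_zero (mul_ne_zero h1 h2) (mul_ne_zero h3 h4)) h5 ?_
    exact ((hA₁ s ⟨hs.1, hs.2.trans_le hd₁⟩).mul (hA₂ s ⟨hs.1, hs.2.trans_le hd₂⟩)).div
      ((hA₃ s ⟨hs.1, hs.2.trans_le hd₃⟩).mul (hA₄ s ⟨hs.1, hs.2.trans_le hd₄⟩)))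
  obtain ⟨C, hC⟩ := (isCompact_Icc (a := δ / 2) (b := 1)).exists_bound_of_continuousOn
    (he.mono (fun s hs => ⟨lt_of_lt_of_le (by linarith) hs.1, hs.2⟩))
  refine ⟨max C (8 * Real.pi + |2 * Real.pi * n|), fun s hs hs1 => ?_⟩
  rcases lt_or_ge s δ with h1 | h1
  · refine le_max_of_le_right ?_
    have h2 := hn s ⟨hs, h1⟩
    have h3 : e s = (a₁ s + a₂ s - (a₃ s + a₄ s)) + 2 * Real.pi * n := by linarith
    rw [h3]
    have h4 := abs_add_le (a₁ s + a₂ s - (a₃ s + a₄ s)) (2 * Real.pi * n)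
    have h5 := abs_sub (a₁ s + a₂ s) (a₃ s + a₄ s)
    have h6 := abs_add_le (a₁ s) (a₂ s)
    have h7 := abs_add_le (a₃ s) (a₄ s)
    have := hb₁ s
    have := hb₂ s
    have := hb₃ s
    have := hb₄ s
    linarith
  · refine le_max_of_le_left ?_
    have h2 := hC s ⟨by linarith, hs1⟩
    rwa [Real.norm_eq_abs] at h2

end ICP
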