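import Pool.Agent.Work.MP_065151_ic.Interface

set_option autoImplicit false

open Topology Metric Filter Set

namespace ICP

theorem p_STP : Stmt_STP := by
  intro L p p' a hL
  obtain ⟨S, hS⟩ : ∃ S : Set ℂ, S = (fun s : ℝ => p + s * (p' - p)) '' Icc 0 1 := ⟨_, rfl⟩
  rw [← hS]
  have hSc : IsCompact S := by
    rw [hS]
    exact isCompact_Icc.image (by fun_prop)
  have hpS : p ∈ S := by
    rw [hS]
    exact ⟨0, ⟨le_rfl, zero_le_one⟩, by simp⟩
  obtain ⟨M, hM⟩ := hL.bdd
  have hslit : ∀ z ∉ L ∪ S, (z - p) / (z - p') ∈ Complex.slitPlane := by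
    intro z hz
    by_contra h
    rw [Complex.mem_slitPlane_iff, not_or, not_lt, not_not] at h
    obtain ⟨h1, h2⟩ := h
    have hzp' : z - p' ≠ 0 := by
      intro h0
      apply hz
      left
      rw [sub_eq_zero.1 h0]
      exact hL.mem
    obtain ⟨r, hr⟩ : ∃ r : ℝ, r = -((z - p) / (z - p')).re := ⟨_, rfl⟩
    have hr0 : 0 ≤ r := by rw [hr]; linarith
    have h3 : (z - p) / (z - p') = -(r : ℂ) := by
      apply Complex.ext
      · rw [Complex.neg_re, Complex.ofReal_re, hr, neg_neg]
      · rw [Complex.neg_im, Complex.ofReal_im, neg_zero, h2]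
    rw [div_eq_iff hzp'] at h3
    have h4 : (1 + (r : ℂ)) ≠ 0 := by
      have : (1 + r : ℝ) ≠ 0 := by positivity
      exact_mod_cast this
    apply hz
    right
    rw [hS]
    refine ⟨r / (1 + r), ⟨by positivity, ?_⟩, ?_⟩
    · rw [div_le_one (by positivity)]
      linarith
    · simp only
      push_cast
      field_simp
      linear_combination -h3
  refine ⟨fun z => a z + ((z - p) / (z - p')).arg, ?_, ?_, ?_, ?_, ?_⟩
  · exact hL.cl.union hSc.isClosed
  · exact Or.inr hpS
  · refine ⟨M + Real.pi, fun z => ?_⟩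
    refine (abs_add_le _ _).trans (add_le_add (hM z) (Complex.abs_arg_le_pi _))
  · intro z hz
    have h1 : ContinuousAt a z :=
      (hL.cont z (fun h => hz (Or.inl h))).continuousAt
        (hL.cl.isOpen_compl.mem_nhds (fun h => hz (Or.inl h)))
    have hzp' : z - p' ≠ 0 := by
      intro h0
      apply hz
      left
      rw [sub_eq_zero.1 h0]
      exact hL.mem
    have h2 : ContinuousAt (fun z : ℂ => (z - p) / (z - p')) z :=
      ContinuousAt.div (by fun_prop) (by fun_prop) hzp'
    have h3 : ContinuousAt (fun z : ℂ => ((z - p) / (z - p')).arg) z :=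
      ContinuousAt.comp (f := fun z : ℂ => (z - p) / (z - p')) (g := Complex.arg)
        (Complex.continuousAt_arg (hslit z hz)) h2
    exact (h1.add h3).continuousWithinAt
  · intro z hz
    have hzp' : z - p' ≠ 0 := by
      intro h0
      apply hz
      left
      rw [sub_eq_zero.1 h0]
      exact hL.mem
    refine ((hL.arg z (fun h => hz (Or.inl h))).mul (Ag_arg ((z - p) / (z - p')))).congr ?_
    field_simp

end ICP
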