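import Pool.Agent.Work.MP_065151_ic.Res
import Pool.Agent.Work.MP_065151_ic.B_ABS
import Pool.Agent.Work.MP_065151_ic.B_AC2
import Pool.Agent.Work.MP_065151_ic.B_ACC
import Pool.Agent.Work.MP_065151_ic.B_BL1
import Pool.Agent.Work.MP_065151_ic.B_BL2
import Pool.Agent.Work.MP_065151_ic.B_CAC
import Pool.Agent.Work.MP_065151_ic.B_CMP
import Pool.Agent.Work.MP_065151_ic.B_CTA
import Pool.Agent.Work.MP_065151_ic.B_DAX
import Pool.Agent.Work.MP_065151_ic.B_DDF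
import Pool.Agent.Work.MP_065151_ic.B_DEN
import Pool.Agent.Work.MP_065151_ic.B_DIS
import Pool.Agent.Work.MP_065151_ic.B_DSQ
import Pool.Agent.Work.MP_065151_ic.B_EIN
import Pool.Agent.Work.MP_065151_ic.B_EQH
import Pool.Agent.Work.MP_065151_ic.B_EXZ
import Pool.Agent.Work.MP_065151_ic.B_FAR
import Pool.Agent.Work.MP_065151_ic.B_GHF
import Pool.Agent.Work.MP_065151_ic.B_HAC
import Pool.Agent.Work.MP_065151_ic.B_NUM
import Pool.Agent.Work.MP_065151_ic.B_PLX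
import Pool.Agent.Work.MP_065151_ic.B_REC
import Pool.Agent.Work.MP_065151_ic.B_SGP
import Pool.Agent.Work.MP_065151_ic.B_STP

/-!
# Assembly
-/

set_option autoImplicit false

namespace ICP

theorem a_CTA : Stmt_CTA := p_CTA p_FAR p_STP
theorem a_CAC : Stmt_CAC := p_CAC a_CTA p_STP
theorem a_ACC : Stmt_ACC := p_ACC a_CAC p_EIN p_SGP p_ABS
theorem a_AC2 : Stmt_AC2 := p_AC2 a_CAC p_EIN p_SGP p_ABS
theorem a_CMP : Stmt_CMP := p_CMP a_ACC a_AC2 p_PLX p_DAX p_DDF p_DSQ p_NUM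
theorem a_EXZ : Stmt_EXZ := p_EXZ p_DEN
theorem a_BL1 : Stmt_BL1 := p_BL1 p_PLX p_DAX p_DDF p_DSQ
theorem a_GHF : Stmt_GHF := p_GHF a_CMP a_EXZ a_BL1 p_BL2 p_DAX
theorem a_REC : Stmt_REC := p_REC a_GHF
theorem a_DIS : Stmt_DIS := p_DIS a_REC

end ICP
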