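import Pool.Agent.Work.MP_065151_ic.Interface

/-!
# Block DDF
-/

set_option autoImplicit false

open Topology Metric Filter Set

namespace ICP

open R4C (f K Bot)

theorem p_DDF : Stmt_DDF := by
  intro c ψ hψ Z hZ x hx y hy E D D' hE hD hD'
  have hout : ∀ w : ℂ, 1 < ‖w‖ → ψ w ∉ K c := by
    intro w hw h
    have h1 : ψ w ∈ ψ '' {w | 1 < ‖w‖} := ⟨w, hw, rfl⟩
    rw [hψ.img] at h1
    exact h1 h
  have hmaps : Set.MapsTo ψ {w : ℂ | 1 < ‖w‖} Zᶜ := fun w hw h => hout w hw (hZ h)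
  have hcont : ContinuousOn (fun w => D' w + E (ψ w)) {w : ℂ | 1 < ‖w‖} :=
    hD'.cont.add (hE.cont.comp hψ.hol.continuousOn hmaps)
  obtain ⟨n, hn⟩ := lcd HH.isConnected_outside.isPreconnected hD.cont hcont (by
    intro w hw
    have hw0 : w ≠ 0 := by
      rintro rfl
      simp only [Set.mem_setOf_eq, norm_zero] at hw
      linarith
    have hx0 : ψ w - x ≠ 0 := fun h => hout w hw (by
      rw [sub_eq_zero.1 h]
      exact hZ hx)
    have hy0 : ψ w - y ≠ 0 := fun h => hout w hw (by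
      rw [sub_eq_zero.1 h]
      exact hZ hy)
    have h1 : Ag ((ψ w - x) / w) (D w) := hD.arg w hw
    have h2 : Ag ((ψ w - x) / w) (D' w + E (ψ w)) := by
      have h3 := (hD'.arg w hw).mul (hE.arg (ψ w) (hmaps hw))
      refine h3.congr ?_
      field_simp
    exact Ag.unique (div_ne_zero hx0 hw0) h1 h2)
  refine ⟨n, fun w hw => ?_⟩
  have h := hn w hw
  linarith

end ICP
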