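import Pool.Agent.Work.MP_065151_ic.Interface

set_option autoImplicit false

open Topology Metric Filter Set

namespace ICP

open R4C (f K Bot)

theorem HLM_bound {c : ℂ} {S : Set ℂ} (hc : IsCompact S) (h0 : (0 : ℂ) ∈ S)
    (hf : f c '' S = S) : ∀ z ∈ S, ‖z‖ ≤ 1 + ‖c‖ := by
  obtain ⟨w, hw, hmax⟩ := hc.exists_isMaxOn ⟨0, h0⟩ continuous_norm.continuousOn
  intro z hz
  have h1 : ‖z‖ ≤ ‖w‖ := hmax hz
  refine h1.trans ?_
  have h2 : f c w ∈ S := by
    rw [← hf]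
    exact mem_image_of_mem _ hw
  have h3 : ‖f c w‖ ≤ ‖w‖ := hmax h2
  have h4 : ‖w ^ 2‖ ≤ ‖f c w‖ + ‖c‖ := by
    have h5 : w ^ 2 = f c w - c := by
      simp [R4C.f]
    rw [h5]
    exact norm_sub_le _ _
  rw [norm_pow] at h4
  by_contra hlt
  push Not at hlt
  have hc0 := norm_nonneg c
  nlinarith [norm_nonneg w]

theorem HLM_lim (W : Ultrafilter ℕ) {R : ℝ} {y : ℕ → ℂ} (hy : ∀ n, ‖y n‖ ≤ R) :
    ∃ z : ℂ, Tendsto y W (𝓝 z) := by
  have h1 : IsCompact (closedBall (0 : ℂ) R) := isCompact_closedBall _ _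
  obtain ⟨z, -, hz⟩ := h1.ultrafilter_le_nhds (W.map y) (by
    rw [le_principal_iff]
    refine mem_map.2 (Eventually.of_forall fun n => ?_)
    simpa using hy n)
  exact ⟨z, hz⟩

theorem p_HLM : Stmt_HLM := by
  intro c cs Hs U hcs hcpt hpre hzero hinv hU hdis
  classical
  obtain ⟨B, hB⟩ := (Metric.isBounded_range_of_tendsto cs hcs).exists_norm_le
  have hR : ∀ n, ∀ z ∈ Hs n, ‖z‖ ≤ 1 + B := fun n z hz =>
    (HLM_bound (hcpt n) (hzero n) (hinv n) z hz).trans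
      (by linarith [hB (cs n) (mem_range_self n)])
  set W : Ultrafilter ℕ := Ultrafilter.of atTop with hW
  have hWle : (W : Filter ℕ) ≤ atTop := Ultrafilter.of_le atTop
  have hcW : Tendsto cs W (𝓝 c) := hcs.mono_left hWle
  set H : Set ℂ := {z | ∃ y : ℕ → ℂ, (∀ n, y n ∈ Hs n) ∧ Tendsto y W (𝓝 z)} with hH
  have hlim : ∀ y : ℕ → ℂ, (∀ n, y n ∈ Hs n) → ∃ z ∈ H, Tendsto y W (𝓝 z) := by
    intro y hy
    obtain ⟨z, hz⟩ := HLM_lim W (fun n => hR n _ (hy n))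
    exact ⟨z, ⟨y, hy, hz⟩, hz⟩
  have hsub : H ⊆ closedBall 0 (1 + B) := by
    rintro z ⟨y, hy, hz⟩
    refine isClosed_closedBall.mem_of_tendsto hz (Eventually.of_forall fun n => ?_)
    simpa using hR n _ (hy n)
  have hclosed : IsClosed H := by
    rw [← closure_subset_iff_isClosed]
    intro z hz
    have h1 : ∀ n, ∃ y ∈ Hs n, infDist z (Hs n) = dist z y := fun n =>
      (hcpt n).exists_infDist_eq_dist ⟨0, hzero n⟩ z
    choose y hy hyd using h1
    refine ⟨y, hy, ?_⟩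
    rw [Metric.tendsto_nhds]
    intro ε hε
    obtain ⟨z', ⟨y', hy', hz'⟩, hzz⟩ := Metric.mem_closure_iff.1 hz (ε / 2) (by linarith)
    filter_upwards [Metric.tendsto_nhds.1 hz' (ε / 2) (by linarith)] with n hn
    have h2 : dist z (y n) ≤ dist z (y' n) := by
      rw [← hyd n]
      exact infDist_le_dist_of_mem (hy' n)
    rw [dist_comm]
    have h3 : dist z (y' n) ≤ dist z z' + dist z' (y' n) := dist_triangle _ _ _
    rw [dist_comm z' (y' n)] at h3
    linarith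
  have hcompact : IsCompact H := (isCompact_closedBall _ _).of_isClosed_subset hclosed hsub
  refine ⟨H, hcompact, ?_, ⟨fun _ => 0, hzero, tendsto_const_nhds⟩, ?_, ?_⟩
  · rw [isPreconnected_closed_iff]
    intro t t' ht ht' hsu h1 h2
    by_contra hne
    have hA : IsCompact (H ∩ t) := hcompact.inter_right ht
    have hB' : IsCompact (H ∩ t') := hcompact.inter_right ht'
    have hd : Disjoint (H ∩ t) (H ∩ t') := by
      rw [Set.disjoint_left]
      rintro z ⟨hzH, hzt⟩ ⟨-, hzt'⟩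
      exact hne ⟨z, hzH, hzt, hzt'⟩
    obtain ⟨U₁, U₂, ho1, ho2, hs1, hs2, hdd⟩ := SeparatedNhds.of_isCompact_isCompact hA hB' hd
    obtain ⟨a, haH, hat⟩ := h1
    obtain ⟨b, hbH, hbt⟩ := h2
    obtain ⟨ya, hya, hla⟩ := haH
    obtain ⟨yb, hyb, hlb⟩ := hbH
    have e1 : ∀ᶠ n in (W : Filter ℕ), ya n ∈ U₁ :=
      hla.eventually (ho1.mem_nhds (hs1 ⟨⟨ya, hya, hla⟩, hat⟩))
    have e2 : ∀ᶠ n in (W : Filter ℕ), yb n ∈ U₂ :=
      hlb.eventually (ho2.mem_nhds (hs2 ⟨⟨yb, hyb, hlb⟩, hbt⟩))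
    have e3 : ∀ᶠ n in (W : Filter ℕ), ∃ y ∈ Hs n, y ∉ U₁ ∪ U₂ := by
      filter_upwards [e1, e2] with n hn1 hn2
      by_contra hcon
      push Not at hcon
      obtain ⟨x, -, hx1, hx2⟩ := hpre n U₁ U₂ ho1 ho2 hcon ⟨ya n, hya n, hn1⟩
        ⟨yb n, hyb n, hn2⟩
      exact Set.disjoint_left.1 hdd hx1 hx2
    set y : ℕ → ℂ := fun n => if h : ∃ y ∈ Hs n, y ∉ U₁ ∪ U₂ then h.choose else 0 with hy
    have hyH : ∀ n, y n ∈ Hs n := by
      intro n
      by_cases h : ∃ y ∈ Hs n, y ∉ U₁ ∪ U₂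
      · simp only [hy, dif_pos h]
        exact h.choose_spec.1
      · simp only [hy, dif_neg h]
        exact hzero n
    obtain ⟨w, hwH, hw⟩ := hlim y hyH
    have hwU : w ∈ U₁ ∪ U₂ := by
      rcases hsu hwH with h | h
      · exact Or.inl (hs1 ⟨hwH, h⟩)
      · exact Or.inr (hs2 ⟨hwH, h⟩)
    have e4 : ∀ᶠ n in (W : Filter ℕ), y n ∈ U₁ ∪ U₂ :=
      hw.eventually ((ho1.union ho2).mem_nhds hwU)
    obtain ⟨n, hn3, hn4⟩ := (e3.and e4).exists
    have h5 : y n ∉ U₁ ∪ U₂ := by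
      simp only [hy, dif_pos hn3]
      exact hn3.choose_spec.2
    exact h5 hn4
  · have hcont : ∀ (y : ℕ → ℂ) (z : ℂ), Tendsto y W (𝓝 z) →
        Tendsto (fun n => f (cs n) (y n)) W (𝓝 (f c z)) := by
      intro y z hz
      have := (hz.pow 2).add hcW
      simpa [R4C.f] using this
    apply Subset.antisymm
    · rintro _ ⟨z, ⟨y, hy, hz⟩, rfl⟩
      refine ⟨fun n => f (cs n) (y n), fun n => ?_, hcont y z hz⟩
      rw [← hinv n]
      exact mem_image_of_mem _ (hy n)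
    · rintro z ⟨y, hy, hz⟩
      have h1 : ∀ n, ∃ x ∈ Hs n, f (cs n) x = y n := by
        intro n
        have h2 : y n ∈ f (cs n) '' Hs n := by
          rw [hinv n]
          exact hy n
        exact h2
      choose x hx hxy using h1
      obtain ⟨w, hwH, hw⟩ := hlim x hx
      refine ⟨w, hwH, ?_⟩
      have h3 := hcont x w hw
      simp only [hxy] at h3
      exact tendsto_nhds_unique h3 hz
  · rw [Set.disjoint_left]
    rintro z ⟨y, hy, hz⟩ hzU
    have e1 : ∀ᶠ n in (W : Filter ℕ), y n ∈ U := hz.eventually (hU.mem_nhds hzU)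
    obtain ⟨n, hn⟩ := e1.exists
    exact Set.disjoint_left.1 (hdis n) (hy n) hn

end ICP
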