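import Pool.Agent.Work.MP_065151_ic.Interface

/-! # Block PLX -/

set_option autoImplicit false

open Topology Metric Filter Set

namespace ICP

/-- A continuous argument on a closed set off `Z`, normalised at `z₀`. -/
lemma PLX_ex {Z : Set ℂ} (hZc : IsPreconnected Z) {x y : ℂ} (hx : x ∈ Z) (hy : y ∈ Z)
    {Y : Set ℂ} (hY : IsClosed Y) (hd : Disjoint Z Y) {z0 : ℂ} (hz0 : z0 ∈ Y) :
    ∃ e : ℂ → ℝ, ContinuousOn e Y ∧ (∀ z ∈ Y, Ag ((z - x) / (z - y)) (e z)) ∧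
      e z0 = Complex.arg ((z0 - x) / (z0 - y)) := by
  obtain ⟨g, hg, he⟩ := HH.log_pair hY hZc hd hx hy
  have hAg : ∀ z ∈ Y, Ag ((z - x) / (z - y)) (g z).im := by
    intro z hz
    unfold Ag
    rw [← he z hz, Complex.norm_exp, Complex.ofReal_exp, ← Complex.exp_add]
    congr 1
    exact (Complex.re_add_im (g z)).symm
  have hne : (z0 - x) / (z0 - y) ≠ 0 := by
    rw [← he z0 hz0]
    exact Complex.exp_ne_zero _
  obtain ⟨n, hn⟩ := Ag.unique hne (Ag_arg ((z0 - x) / (z0 - y))) (hAg z0 hz0)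
  refine ⟨fun z => (g z).im + 2 * Real.pi * n, ?_, fun z hz => (hAg z hz).add_int n, ?_⟩
  · exact (Complex.continuous_im.comp_continuousOn hg).add continuousOn_const
  · show (g z0).im + 2 * Real.pi * n = _
    linarith

lemma PLX_uniq {Z : Set ℂ} {x y : ℂ} (hx : x ∈ Z) (hy : y ∈ Z)
    {Y : Set ℂ} (hY : IsPreconnected Y) (hd : Disjoint Z Y) {z0 : ℂ} (hz0 : z0 ∈ Y)
    {e e' : ℂ → ℝ} (he : ContinuousOn e Y) (he' : ContinuousOn e' Y)
    (ha : ∀ z ∈ Y, Ag ((z - x) / (z - y)) (e z)) (ha' : ∀ z ∈ Y, Ag ((z - x) / (z - y)) (e' z))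
    (h0 : e z0 = e' z0) : ∀ z ∈ Y, e z = e' z := by
  have hne : ∀ z ∈ Y, (z - x) / (z - y) ≠ 0 := by
    intro z hz
    have hzx : z - x ≠ 0 := fun h =>
      Set.disjoint_left.1 hd hx (by rw [← sub_eq_zero.1 h]; exact hz)
    have hzy : z - y ≠ 0 := fun h =>
      Set.disjoint_left.1 hd hy (by rw [← sub_eq_zero.1 h]; exact hz)
    exact div_ne_zero hzx hzy
  obtain ⟨n, hn⟩ := lcd hY he he' (fun z hz => Ag.unique (hne z hz) (ha z hz) (ha' z hz))
  have h1 := hn z0 hz0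
  intro z hz
  have h2 := hn z hz
  linarith

theorem p_PLX : Stmt_PLX := by
  intro Z hZ hZc hZf x hx y hy
  have hO : IsOpen Zᶜ := hZ.isClosed.isOpen_compl
  have hOne : (Zᶜ).Nonempty := Set.nonempty_compl.2 hZ.ne_univ
  have hpc : IsPathConnected Zᶜ := (hO.isConnected_iff_isPathConnected).1 ⟨hOne, hZf⟩
  obtain ⟨z0, hz0⟩ := hOne
  have hY : ∀ z : ℂ, z ∈ Zᶜ → ∃ Y : Set ℂ, IsCompact Y ∧ IsPreconnected Y ∧ Disjoint Z Y ∧
      z0 ∈ Y ∧ ∃ r : ℝ, 0 < r ∧ closedBall z r ⊆ Y := by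
    intro z hz
    obtain ⟨γ, hγ⟩ := hpc.joinedIn z0 hz0 z hz
    obtain ⟨ε, hε, hb⟩ := Metric.isOpen_iff.1 hO z hz
    have hcb : closedBall z (ε / 2) ⊆ Zᶜ :=
      (closedBall_subset_ball (by linarith)).trans hb
    refine ⟨Set.range γ ∪ closedBall z (ε / 2), ?_, ?_, ?_, Or.inl ⟨0, γ.source⟩, ε / 2,
      by linarith, Set.subset_union_right⟩
    · exact (isCompact_range γ.continuous).union (isCompact_closedBall _ _)
    · exact IsPreconnected.union z ⟨1, γ.target⟩ (mem_closedBall_self (by linarith))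
        (isPreconnected_range γ.continuous) (convex_closedBall z (ε / 2)).isPreconnected
    · rw [Set.disjoint_left]
      rintro w hw (⟨t, rfl⟩ | h)
      · exact hγ t hw
      · exact hcb h hw
  choose! Y hYc hYp hYd hY0 r hr hrb using hY
  have hex : ∀ z : ℂ, z ∈ Zᶜ → ∃ e : ℂ → ℝ, ContinuousOn e (Y z) ∧
      (∀ w ∈ Y z, Ag ((w - x) / (w - y)) (e w)) ∧
      e z0 = Complex.arg ((z0 - x) / (z0 - y)) := fun z hz =>
    PLX_ex hZc hx hy (hYc z hz).isClosed (hYd z hz) (hY0 z hz)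
  choose! e hec hea he0 using hex
  have hself : ∀ z ∈ Zᶜ, z ∈ Y z := fun z hz => hrb z hz (mem_closedBall_self (hr z hz).le)
  have key : ∀ z ∈ Zᶜ, ∀ w ∈ Zᶜ, ∀ v ∈ Y z, v ∈ Y w → e z v = e w v := by
    intro z hz w hw v hvz hvw
    have hd : Disjoint Z (Y z ∪ Y w) := Set.disjoint_union_right.2 ⟨hYd z hz, hYd w hw⟩
    obtain ⟨e', h1, h2, h3⟩ := PLX_ex hZc hx hy
      ((hYc z hz).isClosed.union (hYc w hw).isClosed) hd (Or.inl (hY0 z hz))
    have h4 := PLX_uniq hx hy (hYp z hz) (hYd z hz) (hY0 z hz) (hec z hz)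
      (h1.mono Set.subset_union_left) (hea z hz) (fun u hu => h2 u (Or.inl hu))
      ((he0 z hz).trans h3.symm) v hvz
    have h5 := PLX_uniq hx hy (hYp w hw) (hYd w hw) (hY0 w hw) (hec w hw)
      (h1.mono Set.subset_union_right) (hea w hw) (fun u hu => h2 u (Or.inr hu))
      ((he0 w hw).trans h3.symm) v hvw
    rw [h4, h5]
  refine ⟨fun z => e z z, ?_, fun z hz => hea z hz z (hself z hz)⟩
  intro z hz
  apply ContinuousAt.continuousWithinAt
  have hnb : Y z ∈ 𝓝 z := mem_of_superset (closedBall_mem_nhds z (hr z hz)) (hrb z hz)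
  have h1 : ContinuousAt (e z) z := (hec z hz).continuousAt hnb
  refine h1.congr ?_
  filter_upwards [hnb, hO.mem_nhds hz] with w hw hwO
  exact key z hz w hwO w hw (hself w hwO)

end ICP
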