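import Mathlib

/-!
# Continuous arguments off continua: definitions and basic lemmas
-/

set_option autoImplicit false

open Topology Metric Filter Set

namespace ICP

/-- `a` is an argument of `g` (always true for `g = 0`). -/
def Ag (g : ℂ) (a : ℝ) : Prop := g = ‖g‖ * Complex.exp (a * Complex.I)

/-- The real function `e` is bounded on `S`. -/
def Bdd (e : ℂ → ℝ) (S : Set ℂ) : Prop := ∃ M : ℝ, ∀ z ∈ S, |e z| ≤ M

/-- Full continua. -/
structure FC (Z : Set ℂ) : Prop where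
  cpt : IsCompact Z
  con : IsPreconnected Z
  full : IsPreconnected Zᶜ

/-- `E` is a continuous argument of `(z - x) / (z - y)` off `Z`. -/
structure PL (Z : Set ℂ) (x y : ℂ) (E : ℂ → ℝ) : Prop where
  cont : ContinuousOn E Zᶜ
  arg : ∀ z ∉ Z, Ag ((z - x) / (z - y)) (E z)

/-- `ζ` is a point of `Z` that is accessible by a segment from outside of `Z`. -/
def Acc (Z : Set ℂ) (ζ : ℂ) : Prop :=
  ζ ∈ Z ∧ ∃ p : ℂ, ∀ s : ℝ, 0 < s → s ≤ 1 → ζ + s * (p - ζ) ∉ Z

/-- `L` is a cut for `p`: off the closed set `L` the function `a` is a continuous argument of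
`z - p`, and it is bounded. -/
structure Cut (L : Set ℂ) (p : ℂ) (a : ℂ → ℝ) : Prop where
  cl : IsClosed L
  mem : p ∈ L
  bdd : ∃ M : ℝ, ∀ z, |a z| ≤ M
  cont : ContinuousOn a Lᶜ
  arg : ∀ z ∉ L, Ag (z - p) (a z)

/-- A cut for the point `ζ` of `Z`, accessible by the segment from `p`: the cut consists of a
closed set `L` off `Z` and the segment. -/
structure ACut (Z L : Set ℂ) (ζ p : ℂ) (a : ℂ → ℝ) : Prop where
  cl : IsClosed L
  off : L ⊆ Zᶜ
  seg : ∀ s : ℝ, 0 < s → s ≤ 1 → ζ + s * (p - ζ) ∉ Z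
  cut : Cut (L ∪ (fun s : ℝ => ζ + s * (p - ζ)) '' Icc 0 1) ζ a

/-- `D` is a continuous argument of `(ψ w - x) / w` on `|w| > 1`. -/
structure DA (ψ : ℂ → ℂ) (x : ℂ) (D : ℂ → ℝ) : Prop where
  cont : ContinuousOn D {w | 1 < ‖w‖}
  arg : ∀ w, 1 < ‖w‖ → Ag ((ψ w - x) / w) (D w)

/-! ### Arguments -/

lemma Ag_zero (a : ℝ) : Ag 0 a := by simp [Ag]

lemma Ag_arg (g : ℂ) : Ag g g.arg := (Complex.norm_mul_exp_arg_mul_I g).symm

lemma Ag.mul {g h : ℂ} {a b : ℝ} (ha : Ag g a) (hb : Ag h b) : Ag (g * h) (a + b) := by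
  unfold Ag at *
  rw [norm_mul]
  push_cast
  rw [add_mul, Complex.exp_add]
  conv_lhs => rw [ha, hb]
  ring

lemma Ag.inv {g : ℂ} {a : ℝ} (ha : Ag g a) : Ag g⁻¹ (-a) := by
  unfold Ag at *
  rw [norm_inv]
  push_cast
  rw [neg_mul, Complex.exp_neg]
  conv_lhs => rw [ha]
  rw [mul_inv]

lemma Ag.div {g h : ℂ} {a b : ℝ} (ha : Ag g a) (hb : Ag h b) : Ag (g / h) (a - b) := by
  rw [div_eq_mul_inv, sub_eq_add_neg]
  exact ha.mul hb.inv

lemma Ag.sq {g : ℂ} {a : ℝ} (ha : Ag g a) : Ag (g ^ 2) (2 * a) := by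
  rw [pow_two, two_mul]
  exact ha.mul ha

lemma Ag.pos_mul {g : ℂ} {a : ℝ} (ha : Ag g a) {r : ℝ} (hr : 0 ≤ r) : Ag (r * g) a := by
  unfold Ag at *
  rw [norm_mul, Complex.norm_real, Real.norm_of_nonneg hr]
  conv_lhs => rw [ha]
  push_cast
  ring

lemma Ag.add_int {g : ℂ} {a : ℝ} (ha : Ag g a) (n : ℤ) : Ag g (a + 2 * Real.pi * n) := by
  unfold Ag at *
  push_cast
  rw [add_mul, Complex.exp_add]
  have h1 : Complex.exp (2 * Real.pi * n * Complex.I) = 1 := by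
    rw [show (2 * Real.pi * n * Complex.I : ℂ) = n * (2 * Real.pi * Complex.I) by ring]
    exact Complex.exp_int_mul_two_pi_mul_I n
  rw [h1, mul_one]
  exact ha

lemma Ag.unique {g : ℂ} {a b : ℝ} (hg : g ≠ 0) (ha : Ag g a) (hb : Ag g b) :
    ∃ n : ℤ, a - b = 2 * Real.pi * n := by
  have h0 : (‖g‖ : ℂ) ≠ 0 := by
    rw [Complex.ofReal_ne_zero]
    exact norm_ne_zero_iff.2 hg
  have h1 : Complex.exp (a * Complex.I) = Complex.exp (b * Complex.I) := by
    apply mul_left_cancel₀ h0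
    rw [← ha, ← hb]
  obtain ⟨n, hn⟩ := Complex.exp_eq_exp_iff_exists_int.1 h1
  refine ⟨n, ?_⟩
  have h2 : ((a - b : ℝ) : ℂ) * Complex.I = ((2 * Real.pi * n : ℝ) : ℂ) * Complex.I := by
    push_cast
    linear_combination hn
  exact_mod_cast mul_right_cancel₀ Complex.I_ne_zero h2

lemma Ag.congr {g h : ℂ} {a : ℝ} (ha : Ag g a) (h1 : g = h) : Ag h a := h1 ▸ ha

/-- Two continuous functions that differ by multiples of `2π` on a preconnected set differ by a
constant. -/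
lemma lcd {X : Type*} [TopologicalSpace X] {S : Set X} (hS : IsPreconnected S) {a b : X → ℝ}
    (ha : ContinuousOn a S) (hb : ContinuousOn b S)
    (h : ∀ z ∈ S, ∃ n : ℤ, a z - b z = 2 * Real.pi * n) :
    ∃ n : ℤ, ∀ z ∈ S, a z - b z = 2 * Real.pi * n := by
  rcases S.eq_empty_or_nonempty with hE | ⟨z0, hz0⟩
  · exact ⟨0, fun z hz => by rw [hE] at hz; exact absurd hz (Set.notMem_empty z)⟩
  obtain ⟨n0, hn0⟩ := h z0 hz0
  refine ⟨n0, fun z hz => ?_⟩
  have hpi := Real.pi_pos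
  have hc : ContinuousOn (fun z => (a z - b z) / (2 * Real.pi)) S := (ha.sub hb).div_const _
  have him := hS.image _ hc
  have hint : ∀ z ∈ S, ∃ n : ℤ, (a z - b z) / (2 * Real.pi) = n := by
    intro z hz
    obtain ⟨n, hn⟩ := h z hz
    refine ⟨n, ?_⟩
    rw [hn]
    field_simp
  obtain ⟨n, hn⟩ := h z hz
  by_contra hne
  have hnn : n ≠ n0 := by
    rintro rfl
    exact hne hn
  have e1 : (a z - b z) / (2 * Real.pi) = n := by rw [hn]; field_simp
  have e0 : (a z0 - b z0) / (2 * Real.pi) = n0 := by rw [hn0]; field_simp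
  have hord := him.ordConnected
  have key : ∀ p q : ℤ, p < q → ((p : ℝ) ∈ (fun z => (a z - b z) / (2 * Real.pi)) '' S) →
      ((q : ℝ) ∈ (fun z => (a z - b z) / (2 * Real.pi)) '' S) → False := by
    intro p q hpq hp hq
    have h1 : (p : ℝ) + 1 / 2 ∈ Set.Icc (p : ℝ) q := by
      constructor
      · linarith
      · have : (p : ℝ) + 1 ≤ q := by exact_mod_cast hpq
        linarith
    obtain ⟨y, hy, hy2⟩ := hord.out hp hq h1
    obtain ⟨m, hm⟩ := hint y hy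
    simp only at hy2
    rw [hm] at hy2
    have h2 : (2 * m : ℤ) = 2 * p + 1 := by
      have : (2 * m : ℝ) = 2 * p + 1 := by linarith
      exact_mod_cast this
    omega
  rcases lt_or_gt_of_ne hnn with h1 | h1
  · exact key n n0 h1 ⟨z, hz, e1⟩ ⟨z0, hz0, e0⟩
  · exact key n0 n h1 ⟨z0, hz0, e0⟩ ⟨z, hz, e1⟩

lemma Ag.re_pos {g : ℂ} {a : ℝ} (hg : g ≠ 0) (ha : Ag g a) (h : |a| < Real.pi / 2) : 0 < g.re := by
  have h1 : g.re = ‖g‖ * Real.cos a := by
    conv_lhs => rw [ha]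
    rw [Complex.re_ofReal_mul, Complex.exp_ofReal_mul_I_re]
  rw [h1]
  refine mul_pos (norm_pos_iff.2 hg) (Real.cos_pos_of_mem_Ioo ?_)
  rw [abs_lt] at h
  exact ⟨by linarith [h.1], h.2⟩

end ICP
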