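import Pool.Agent.Work.MP_065151_hh.Rays
import Pool.Agent.Work.MP_065151_ic.Defs

/-!
# The irreducible critical pair: statements of the blocks with proofs

Notation: `f c z = z ^ 2 + c`, `K c` the filled Julia set (namespace `R4C`), `HH` = landed library
`Work/MP_065151_hh` (read `Crit`, `Basic`, `Mr`, `Leo`, `Irred`, `Rays` for the names used below).
-/

set_option autoImplicit false

open Topology Metric Filter Set

namespace ICP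

open R4C (f K Bot)

/-- **ABS**. `Y` open preconnected, `S` closed, meeting `Y`; `E` continuous on `Y` and bounded on
`Y ∩ S`; `A` continuous and bounded on `Y \ S`, `E - A` in `2πℤ` there. Then `E` is bounded on `Y`.
Proof. Let `|E| ≤ M₁` on `Y ∩ S`, `|A| ≤ M₂` on `Y \ S`, `C = M₁ + 1 + M₂` (`M₁, M₂ ≥ 0` w.l.o.g.).
`W = {z ∈ Y \ S : C < |E z - A z|}`, `V = {z ∈ Y : |E z| < M₁ + 1}`, `U = (Y \ S) \ W ∪ V`.
`Y = W ∪ U`; `W`, `U` are open: `E - A` is locally constant on the open set `Y \ S` (lemma `lcd` on a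
small ball around the point), `V` is open (continuity); they are disjoint: on `V \ S`,
`|E - A| ≤ M₁ + 1 + M₂`. `U` meets `Y` (in `Y ∩ S ⊆ V`). `Y` preconnected gives `W = ∅`. So
`|E| ≤ C + M₂` on `Y \ S`, and `|E| ≤ M₁` on `Y ∩ S`. -/
def Stmt_ABS : Prop := ∀ (Y S : Set ℂ) (E A : ℂ → ℝ), IsOpen Y → IsPreconnected Y → IsClosed S →
  (Y ∩ S).Nonempty → ContinuousOn E Y → Bdd E (Y ∩ S) → ContinuousOn A (Y \ S) → Bdd A (Y \ S) →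
  (∀ z ∈ Y \ S, ∃ n : ℤ, E z - A z = 2 * Real.pi * n) → Bdd E Y

/-- **SGP**. A continuous argument of `(z - x₁)(z - x₂) / ((z - y₁)(z - y₂))` along a half open
segment `z = ζ + s v`, `0 < s ≤ 1`, is bounded.
Proof. For every `x`: `(z - x) / ‖z - x‖ → u` as `s → 0+` for some `u` of norm `1`: if `x = ζ` it is
`v / ‖v‖` for all `s > 0`; if `x ≠ ζ` then `z - x → ζ - x ≠ 0`. So `G / ‖G‖ → u`, `‖u‖ = 1`, for the
product `G s` of the statement. For `0 < s < δ`: `‖G / (‖G‖ u) - 1‖ < 1`, so `G / (‖G‖ u)` is in the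
slit plane and `θ s = arg (G s / (‖G s‖ u))` is continuous on `(0, δ)`, `|θ| ≤ π`, and
`θ s + arg u` is an argument of `G s`. By `Ag.unique` and `lcd` on `(0, δ)` `e s - θ s - arg u` is
constant there, so `e` is bounded on `(0, δ)`. On the compact `[δ/2, 1]` (take `δ ≤ 1`) `e` is
continuous, so bounded. -/
def Stmt_SGP : Prop := ∀ (ζ v x₁ x₂ y₁ y₂ : ℂ) (e : ℝ → ℝ), v ≠ 0 → ContinuousOn e (Ioc 0 1) →
  (∀ s : ℝ, 0 < s → s ≤ 1 → ζ + s * v - x₁ ≠ 0 ∧ ζ + s * v - x₂ ≠ 0 ∧ ζ + s * v - y₁ ≠ 0 ∧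
    ζ + s * v - y₂ ≠ 0 ∧
    Ag ((ζ + s * v - x₁) * (ζ + s * v - x₂) / ((ζ + s * v - y₁) * (ζ + s * v - y₂))) (e s)) →
  ∃ M : ℝ, ∀ s : ℝ, 0 < s → s ≤ 1 → |e s| ≤ M

/-- **EIN**. A continuous argument of `(z - x) / (z - y)` off a compact set is bounded near
infinity.
Proof. Let `R > 0` be so large that `Z ⊆ ball 0 R` and `‖y - x‖ < ‖z - y‖` for `R ≤ ‖z‖`. For
`R ≤ ‖z‖`: `(z - x) / (z - y) = 1 + (y - x) / (z - y)` is in the slit plane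
(`Complex.mem_slitPlane_of_norm_lt_one`), so its principal argument is continuous on
`{z : R < ‖z‖}`, which is preconnected (the image of `{w : 1 < ‖w‖}`, `HH.isConnected_outside`,
under `w ↦ R w`). By `Ag.unique` and `lcd`, `E - arg` is constant there, and `|arg| ≤ π`. Answer
with `R + 1`. -/
def Stmt_EIN : Prop := ∀ (Z : Set ℂ) (x y : ℂ) (E : ℂ → ℝ), IsCompact Z → PL Z x y E →
  ∃ R M : ℝ, ∀ z, R ≤ ‖z‖ → z ∉ Z ∧ |E z| ≤ M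

/-- **FAR**. Far points have a cut.
Proof. `Z ⊆ closedBall 0 R`, `0 ≤ R`. For `R < ‖p‖` let `L = {z | ∃ s : ℝ, 1 ≤ s ∧ z = s * p}`
(closed: it is `{z | z / p` is real and at least `1}` `= {z | (z / p).im = 0 ∧ 1 ≤ (z / p).re}`), off
`Z` since `‖s p‖ ≥ ‖p‖ > R`. Let `a z = arg ((z - p) / (-p)) + arg (-p)`, `|a| ≤ 2π`. For `z ∉ L`:
`(z - p) / (-p) = 1 - z / p` is in the slit plane (else `z / p` is real and `≥ 1`), so `a` is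
continuous at `z`. `Ag (z - p) (a z)` by `Ag.mul`, `Ag_arg`. -/
def Stmt_FAR : Prop := ∀ Z : Set ℂ, Bornology.IsBounded Z → ∃ R : ℝ, ∀ p : ℂ, R < ‖p‖ →
  ∃ (L : Set ℂ) (a : ℂ → ℝ), Cut L p a ∧ L ⊆ Zᶜ

/-- **STP**. Moving the end of a cut along a segment.
Proof. `S = (fun s : ℝ => p + s * (p' - p)) '' Icc 0 1` is compact and contains `p` (`s = 0`).
`a' z = a z + arg ((z - p) / (z - p'))`, bounded by `M + π`. Let `z ∉ L ∪ S`; `z ≠ p'` since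
`p' ∈ L`. `(z - p) / (z - p')` is in the slit plane: otherwise it equals `-r` with `r ≥ 0` real
(re `≤ 0`, im `= 0`), so `z - p = -r (z - p')`, `z = p + (r / (1 + r)) (p' - p) ∈ S`. So `a'` is
continuous at `z` (`Lᶜ` is open, `(L ∪ S)ᶜ` is open). `Ag (z - p) (a' z)`: `Ag.mul` of
`Ag (z - p') (a z)` and `Ag_arg`, as `(z - p') * ((z - p) / (z - p')) = z - p`. -/
def Stmt_STP : Prop := ∀ (L : Set ℂ) (p p' : ℂ) (a : ℂ → ℝ), Cut L p' a →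
  ∃ a' : ℂ → ℝ, Cut (L ∪ (fun s : ℝ => p + s * (p' - p)) '' Icc 0 1) p a'

/-- **CTA**. Every point off `Z` has a cut off `Z`.
Proof. Let `Q = {p ∉ Z : ∃ L a, Cut L p a ∧ L ⊆ Zᶜ}`. If `p, q` are in a ball contained in `Zᶜ` and
`p ∈ Q` then `q ∈ Q` (STP with `p' = p`, `p = q`: the segment is in the ball, which is convex). So
`Q` and `Zᶜ \ Q` are open. `Q` is not empty (FAR, `Zᶜ` contains far points: `Z` is bounded, take a
point of norm larger than `R` and than the bound of `Z`). `Zᶜ` is preconnected, so `Zᶜ \ Q = ∅`. -/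
def Stmt_CTA : Prop := ∀ Z : Set ℂ, IsCompact Z → IsPreconnected Zᶜ → ∀ p ∉ Z,
  ∃ (L : Set ℂ) (a : ℂ → ℝ), Cut L p a ∧ L ⊆ Zᶜ

/-- **CAC**. Accessible points have a cut.
Proof. `Acc Z ζ` gives `p` (with `p ∉ Z`, by `s = 1`). CTA for `p` gives `L`, `a`; STP with
`p' := p`, `p := ζ` gives the cut `L ∪ segment` for `ζ`. -/
def Stmt_CAC : Prop := ∀ Z : Set ℂ, IsCompact Z → IsPreconnected Zᶜ → ∀ ζ, Acc Z ζ →
  ∃ (L : Set ℂ) (p : ℂ) (a : ℂ → ℝ), ACut Z L ζ p a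

/-- **ACC**. For two accessible points the argument of `(z - ζ) / (z - ζ')` is bounded.
Proof. CAC: `L, p, a` for `ζ` and `L', p', a'` for `ζ'`; segments `σ, σ'`. ABS with `Y = Zᶜ`,
`S = (L ∪ σ) ∪ (L' ∪ σ')`, `A = a - a'`. `Y ∩ S` contains `p` (`s = 1`). `E` is bounded on
`Y ∩ S`: on `L` (closed, off `Z`): by EIN it is bounded on `{z : R ≤ ‖z‖}` and it is continuous on
the compact `L ∩ closedBall 0 R`; same for `L'`. On `σ ∩ Y`: the points are `ζ + s (p - ζ)` with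
`0 < s ≤ 1` (`ζ ∈ Z` excludes `s = 0`), and `SGP` with `v = p - ζ`, `x₁ = ζ`, `x₂ = ζ'`, `y₁ = ζ'`,
`y₂ = ζ'` and `e s = E (ζ + s v)` applies (`(z - ζ)(z - ζ') / ((z - ζ')(z - ζ')) =
(z - ζ) / (z - ζ')`, `v ≠ 0` as `ζ ∈ Z`, `p ∉ Z`; no `z` equals `ζ` or `ζ'` since `z ∉ Z`). Same for
`σ'`. Off `S`: `Ag.unique` with `(z - ζ) / (z - ζ') ≠ 0`. -/
def Stmt_ACC : Prop := ∀ Z : Set ℂ, IsCompact Z → IsPreconnected Zᶜ → ∀ (ζ ζ' : ℂ) (E : ℂ → ℝ),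
  Acc Z ζ → Acc Z ζ' → PL Z ζ ζ' E → Bdd E Zᶜ

/-- **AC2**. `ζ` accessible in `H`, `ζ'` accessible in `H' = f⁻¹ H`; then the argument of
`(z - f ζ') / (z - ζ)` off `H` is bounded.
Proof. `H'` is compact (`HH.preimage_compact`), symmetric (`HH.f_neg`), so `-ζ'` is accessible in
`H'` (with `-p`). CAC: `(L₁, p₁, a₁)` for `ζ'` in `H'`, `(L₂, p₂, a₂)` for `-ζ'` in `H'`,
`(L₃, p₃, a₃)` for `ζ` in `H`, segments `σᵢ`. `Y = H'ᶜ = f⁻¹ (Hᶜ)`, `F = E ∘ f`,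
`S = (L₁ ∪ σ₁) ∪ (L₂ ∪ σ₂) ∪ f⁻¹ (L₃ ∪ σ₃)`, `A = a₁ + a₂ - a₃ ∘ f`. Off `S`, `F z` and `A z` are
arguments of `(f z - f ζ') / (f z - ζ) = (z - ζ')(z + ζ') / (f z - ζ) ≠ 0`. `F` is bounded on
`Y ∩ S`: on `L₁`: by EIN for `E` and `‖z‖ ≥ R'` implies `‖f z‖ ≥ R` (`‖f z‖ ≥ ‖z‖ ^ 2 - ‖c‖`), and on
the compact part of `L₁` by continuity; same on `L₂`. On `σ₁ ∩ Y`: SGP with `v = p₁ - ζ'`,
`x₁ = ζ'`, `x₂ = -ζ'`, `y₁ = y`, `y₂ = -y`, where `f y = ζ` (`HH.f_surj`): `f z - ζ = (z - y)(z + y)`,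
nonzero since `f z ∉ H ∋ ζ`; same on `σ₂`. On `f⁻¹ (L₃ ∪ σ₃) ∩ Y`: `F z = E (f z)` with
`f z ∈ (L₃ ∪ σ₃) \ H`; `E` is bounded on `L₃` (EIN, compactness) and on `σ₃ \ H` (SGP with `x₁ =
f ζ'`, `x₂ = y₁ = y₂ = ζ`). ABS: `F` is bounded on `Y`; `f` maps `Y` onto `Hᶜ`. -/
def Stmt_AC2 : Prop := ∀ (c : ℂ) (H : Set ℂ), IsCompact H → IsPreconnected Hᶜ →
  IsPreconnected (f c ⁻¹' H)ᶜ → ∀ (ζ ζ' : ℂ) (E : ℂ → ℝ), Acc H ζ → Acc (f c ⁻¹' H) ζ' →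
    PL H (f c ζ') ζ E → Bdd E Hᶜ

/-- **DEN**. The accessible points of a compact set without interior are dense in it.
Proof. Let `y ∈ Z`, `y ∉ F`, `ball y ε ⊆ Fᶜ`. `y` is not in the interior of `Z`, so there is
`y' ∉ Z` with `‖y' - y‖ < ε`. The set of `t ∈ Icc 0 1` with `y' + t (y - y') ∈ Z` is compact and
contains `1`; let `t₀` be its least element, `t₀ > 0`, `ζ = y' + t₀ (y - y') ∈ Z`,
`‖ζ - y‖ = (1 - t₀) ‖y' - y‖ < ε`, so `ζ ∉ F`. `ζ` is accessible with `p = y'`: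
`ζ + s (y' - ζ) = y' + (1 - s) t₀ (y - y')`, `(1 - s) t₀ < t₀`. Contradiction. -/
def Stmt_DEN : Prop := ∀ Z : Set ℂ, IsCompact Z → interior Z = ∅ → ∀ F : Set ℂ, IsClosed F →
  (∀ ζ, Acc Z ζ → ζ ∈ F) → Z ⊆ F

/-- **PLX**. Existence of the argument of `(z - x) / (z - y)` off a full continuum.
Proof. `O = Zᶜ` is open, connected, not empty, so path connected
(`IsOpen.isConnected_iff_isPathConnected`); fix `z₀ ∈ O`. For compact `Y ⊆ O` with `z₀ ∈ Y`,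
`HH.log_pair` (with `A = Z`) gives `g` continuous on `Y` with `exp (g z) = (z - x) / (z - y)`; add a
constant in `2πiℤ` so that `g z₀ = log ((z₀ - x) / (z₀ - y))`; call it `g_Y`. If `Y₁ ⊆ Y₂` are such
and `Y₁` is preconnected then `g_{Y₂} = g_{Y₁}` on `Y₁` (imaginary parts: `lcd`, equal at `z₀`).
For `z ∈ O` choose a compact preconnected `Y_z ⊆ O` that contains `z₀` and a closed ball around `z`
(a path from `z₀` to `z` and the ball). `E z = (g_{Y_z} z).im`. For `z'` in that ball,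
`E z' = (g_{Y_z} z').im`: both equal `(g_W z').im`, `W = Y_z ∪ Y_{z'}`, compact. So `E` is continuous
at `z`, and `Ag` holds since `q = exp g` has `q = ‖q‖ exp (i im g)`. -/
def Stmt_PLX : Prop := ∀ Z : Set ℂ, IsCompact Z → IsPreconnected Z → IsPreconnected Zᶜ →
  ∀ x ∈ Z, ∀ y ∈ Z, ∃ E : ℂ → ℝ, PL Z x y E

/-- **DAX**. Existence of the argument of `(ψ w - x) / w`, bounded for `2 ≤ ‖w‖`.
Proof. `h u = (ψ (u⁻¹) - x) * u` for `u ≠ 0`, `h 0 = 1`: differentiable on `ball 0 1 \ {0}`, continuous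
at `0` (`ψ w / w → 1`, `x / w → 0` as `w → ∞`, `Filter.tendsto_inv₀_cobounded` or similar), so
differentiable on `ball 0 1` (`Complex.differentiableOn_compl_singleton_and_continuousAt_iff`), no
zeros (`ψ w ∉ K c ∋ x`, `Bot.img`). So it has a continuous logarithm `g` on the ball (a primitive of
`h' / h`, e.g. `DifferentiableOn.isExactOn_ball` or `Complex.exists_primitive...`, or any lemma on
logarithms on balls you know). `D w = (g (w⁻¹)).im`. For `2 ≤ ‖w‖`, `w⁻¹` is in the compact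
`closedBall 0 (1/2)`. -/
def Stmt_DAX : Prop := ∀ (c : ℂ) (ψ : ℂ → ℂ), Bot c ψ → ∀ x ∈ K c, ∃ D : ℂ → ℝ, DA ψ x D ∧
  ∃ M : ℝ, ∀ w, 2 ≤ ‖w‖ → |D w| ≤ M

/-- **DDF**. `D_x - D_y = E ∘ ψ + const`.
Proof. `lcd` on `{w | 1 < ‖w‖}` (`HH.isConnected_outside`) for `D` and `D' + E ∘ ψ`; `ψ w ∉ K c`
(`Bot.img`), so not in `Z`; `((ψ w - x) / w) / ((ψ w - y) / w) = (ψ w - x) / (ψ w - y) ≠ 0`,
`Ag.unique`. Continuity of `E ∘ ψ`: `Bot.hol`. -/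
def Stmt_DDF : Prop := ∀ (c : ℂ) (ψ : ℂ → ℂ), Bot c ψ → ∀ Z : Set ℂ, Z ⊆ K c → ∀ x ∈ Z, ∀ y ∈ Z,
  ∀ E D D' : ℂ → ℝ, PL Z x y E → DA ψ x D → DA ψ y D' →
    ∃ n : ℤ, ∀ w, 1 < ‖w‖ → D w - D' w - E (ψ w) = 2 * Real.pi * n

/-- **DSQ**. `D_{f x} (w ^ 2) = D_x w + D_{-x} w + const`.
Proof. `lcd` as in DDF; `(ψ (w ^ 2) - f c x) / w ^ 2 = ((ψ w - x) / w) * ((ψ w + x) / w)` by
`Bot.eqn`, nonzero since `ψ w ∉ K c` and `x, -x ∈ K c` (`HH.neg_mem_K`). -/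
def Stmt_DSQ : Prop := ∀ (c : ℂ) (ψ : ℂ → ℂ), Bot c ψ → ∀ x ∈ K c, ∀ D D' D'' : ℂ → ℝ,
  DA ψ x D → DA ψ (-x) D' → DA ψ (f c x) D'' →
    ∃ n : ℤ, ∀ w, 1 < ‖w‖ → D'' (w ^ 2) - (D w + D' w) = 2 * Real.pi * n

/-- **NUM**. Proof. `B ≥ 0` (use `w = 2`), `M ≥ 0`. Claim by induction on `n`: if `1 < ‖w‖` and
`2 ≤ ‖w‖ ^ 2 ^ n` then `|D w| ≤ M + B`. Step: `‖w ^ 2‖ ^ 2 ^ n = ‖w‖ ^ 2 ^ (n + 1)`, so
`|D (w ^ 2)| ≤ M + B`, `2 |D w| ≤ |D (w ^ 2)| + B ≤ M + 2 B`. For every `w` with `1 < ‖w‖` there is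
such an `n`. -/
def Stmt_NUM : Prop := ∀ (D : ℂ → ℝ) (B M : ℝ), (∀ w, 1 < ‖w‖ → |D (w ^ 2) - 2 * D w| ≤ B) →
  (∀ w, 2 ≤ ‖w‖ → |D w| ≤ M) → Bdd D {w | 1 < ‖w‖}

/-- **CMP**. Proof. `H' = f⁻¹ H` is compact, preconnected (`HH.preimage_compact`,
`HH.preimage_conn`), contained in `K c` (`HH.f_mem_K`), and contains `0`. `Z = H ∪ H'` is compact,
preconnected (`0` in both), in `K c`. The complements of `H`, `H'`, `Z` are preconnected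
(`HH.full_sub`). `ζ` is accessible in `H`, `ζ'` in `H'` (same segments, smaller sets), `-ζ'` in `H'`
(`HH.f_neg`). PLX: `E₁` for `(Z, ζ, ζ')`, `E₂` for `(H', ζ', -ζ')`, `E₃` for `(H, f ζ', ζ)`; bounded
by ACC, ACC, AC2. DAX: `D₁, D₂, D₃` for `ζ', -ζ', f ζ'`. By DDF `D - D₁`, `D₁ - D₂`, `D₃ - D` are
bounded on `1 < ‖w‖` (`ψ w ∉ K c`). By DSQ `D₃ (w ^ 2) - D₁ w - D₂ w` is constant. So
`|D (w ^ 2) - 2 D w| ≤ B` on `1 < ‖w‖`. `D` is bounded for `2 ≤ ‖w‖`: DAX gives another argument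
`D₀` for `ζ`, bounded there, and `D - D₀` is constant (`lcd`). NUM. -/
def Stmt_CMP : Prop := ∀ (c : ℂ) (ψ : ℂ → ℂ), Bot c ψ → (0 : ℂ) ∈ K c → interior (K c) = ∅ →
  ∀ H : Set ℂ, IsCompact H → IsPreconnected H → H ⊆ K c → c ∈ H → (0 : ℂ) ∈ H →
    ∀ ζ ζ' : ℂ, ζ ∈ H → f c ζ' ∈ H → Acc (H ∪ f c ⁻¹' H) ζ → Acc (H ∪ f c ⁻¹' H) ζ' →
      ∀ D : ℂ → ℝ, DA ψ ζ D → Bdd D {w | 1 < ‖w‖}

/-- **EXZ**. Proof. `H' = f⁻¹ H`, `Z = H ∪ H'` is compact, in `K c`, so `interior Z = ∅`.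
(1) `H' ⊆ H` is impossible: let `z ∈ K c \ H`, `ball z ρ` off `H`; `HH.leo` gives `n` with
`K c ⊆ f^n '' ball z ρ`; `0 ∈ H ⊆ K c` is `f^n u` with `u ∈ ball z ρ`, and `f⁻¹ H ⊆ H` gives
`u ∈ H` (induction), contradiction. So some accessible point `ζ'` of `Z` is not in `H` (else DEN with
`F = H` gives `H' ⊆ Z ⊆ H`), so `ζ' ∈ H'`.
(2) If some accessible point of `Z` is in `H` we are done. Otherwise all are in `H'` (closed), and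
DEN gives `H ⊆ Z ⊆ H'`, so `f '' H ⊆ H`; hence `f '' H = H` and `Z = H'`. `f ζ' ∈ H = f '' H`:
`f ζ' = f h`, `h ∈ H`, so `ζ' = h` or `ζ' = -h` (`HH.f_eq`). In the first case `ζ' ∈ H` is
accessible; in the second `h = -ζ'` is accessible in `Z = H'`, which is symmetric. -/
def Stmt_EXZ : Prop := ∀ c : ℂ, (0 : ℂ) ∈ K c → interior (K c) = ∅ →
  ∀ H : Set ℂ, IsCompact H → IsPreconnected H → H ⊆ K c → ¬ K c ⊆ H → c ∈ H → (0 : ℂ) ∈ H →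
    (¬ f c '' H ⊆ H ∨ f c '' H = H) →
    ∃ ζ ζ' : ℂ, ζ ∈ H ∧ f c ζ' ∈ H ∧ Acc (H ∪ f c ⁻¹' H) ζ ∧ Acc (H ∪ f c ⁻¹' H) ζ'

/-- **BL1**. Proof. `b ≠ 0` (`0 ∈ H`). Choose `R > 0` with `closedBall b R` off `H` (so
`R < ‖b‖`) and `0 < r ≤ R` with `f (ball b r) ⊆ ball b R` (continuity, `f b = b`). PLX for `H`:
`E₀` for `(0, ζ)`, `E₁` for `(c, 0)`. DAX: `D₀` for `0`, `D₁` for `c` (`0, c ∈ K c`). DDF: `D₀ w =
D w + E₀ (ψ w) + const`, so `|D₀ w| ≤ M'` if `ψ w ∈ closedBall b R` (compact). `l z = arg (z / b) +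
arg b`: continuous on `ball b R` (`z / b` is in the slit plane, `‖z / b - 1‖ < 1`), an argument of
`z`, `|l| ≤ 2π`. `lam w = l (ψ w) - D₀ w` is an argument of `w` if `ψ w ∈ ball b R`
(`w = ψ w / ((ψ w - 0) / w)`), bounded by `M' + 2π`.
`Θ z = 2 l z - l (f z) - E₁ (f z)` is continuous on `ball b r`. For `ψ w ∈ ball b r`, `z = ψ w`,
`f z = ψ (w ^ 2)`: by DSQ (`x = 0`, `D = D' = D₀`, `f c 0 = c`) `D₁ (w ^ 2) = 2 D₀ w + const`, by DDF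
`D₁ (w ^ 2) - D₀ (w ^ 2) = E₁ (f z) + const`, constants in `2πℤ`; so `2 lam w - lam (w ^ 2) = Θ z +
2πn₀` with a fixed integer `n₀`, and it is in `2πℤ` (two arguments of `w ^ 2`). So `Θ ∈ 2πℤ` on
`ball b r \ K c`, which is dense in `ball b r` (`interior (K c) = ∅`; every `z ∉ K c` is some `ψ w`),
hence on `ball b r` (`2πℤ` is closed: use that `Complex.exp (Θ z * I) = 1` on a dense subset), and
`Θ` is constant on `ball b r` (`lcd` with `b = 0`). So `2 lam w - lam (w ^ 2) = 2πk` for all these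
`w`, and `μ w = lam w - 2πk` has `μ (w ^ 2) = 2 μ w`, `|μ| ≤ M' + 2π + 2π|k|`. -/
def Stmt_BL1 : Prop := ∀ (c : ℂ) (ψ : ℂ → ℂ), Bot c ψ → (0 : ℂ) ∈ K c → interior (K c) = ∅ →
  ∀ H : Set ℂ, IsCompact H → IsPreconnected H → H ⊆ K c → c ∈ H → (0 : ℂ) ∈ H →
    ∀ b : ℂ, f c b = b → b ∉ H → ∀ ζ ∈ H, ∀ D : ℂ → ℝ, DA ψ ζ D → Bdd D {w | 1 < ‖w‖} →
      ∃ r : ℝ, 0 < r ∧ ∃ (μ : ℂ → ℝ) (M : ℝ), ∀ w, 1 < ‖w‖ → ψ w ∈ ball b r →
        Ag w (μ w) ∧ |μ w| ≤ M ∧ (ψ (w ^ 2) ∈ ball b r → μ (w ^ 2) = 2 * μ w)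

/-- **BL2**. Proof. Choose `m` with `M / 2 ^ m < π / 2` (`M ≥ 0` w.l.o.g.), `N = {z | ∀ j ≤ m,
(f c)^[j] z ∈ ball b r}`, open (finite intersection of preimages under continuous maps), contains `b`
(`Function.iterate_fixed`). Let `ψ w ∈ N`. `(f c)^[j] (ψ w) = ψ (w ^ 2 ^ j)` (induction with
`Bot.eqn`), so `ψ (w ^ 2 ^ j) ∈ ball b r` for `j ≤ m` and by induction `μ (w ^ 2 ^ j) = 2 ^ j μ w`.
So `2 ^ m |μ w| ≤ M`, `|μ w| < π / 2`, and `Ag.re_pos`. -/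
def Stmt_BL2 : Prop := ∀ (c : ℂ) (ψ : ℂ → ℂ), Bot c ψ → ∀ (b : ℂ) (r M : ℝ) (μ : ℂ → ℝ),
  f c b = b → 0 < r → (∀ w, 1 < ‖w‖ → ψ w ∈ ball b r →
    Ag w (μ w) ∧ |μ w| ≤ M ∧ (ψ (w ^ 2) ∈ ball b r → μ (w ^ 2) = 2 * μ w)) →
    ∃ N : Set ℂ, IsOpen N ∧ b ∈ N ∧ ∀ w, 1 < ‖w‖ → ψ w ∈ N → 0 < w.re

/-- **GHF** (Theorem G). Proof. `ψ` from `R4C.stmt_BOT R4C.stmt_ELM c h0` (`Bot c ψ`); `HH.Bo c ψ` for
the same `ψ` (copy the proof of `HH.exists_Bo`). `HH.land` gives `b`, `f b = b`, the landing point of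
the ray of angle `0`. If `b ∈ H`: `HH.crit_ray` with `S' = H`, `t0 = 0`, `HH.principal_zero` (as in
`HH.thmA`) gives `A`, which is a `HH.Half`. Let `b ∉ H`. Suppose there is no `Half`.
`HH.exists_dense_ray` gives `t` with `K c ⊆ closure (HH.ray ψ t)`. EXZ gives `ζ, ζ'`; DAX an argument
`D` for `ζ`, bounded on `1 < ‖w‖` by CMP; BL1, BL2 give an open `N ∋ b` with `0 < re w` whenever
`ψ w ∈ N`. `b, -b ∈ K c` (`HH.fixed_mem_K`, `HH.neg_mem_K`). The ray meets `N`: some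
`w₁ = r₁ e^(2πit)`, `r₁ > 1`, has positive real part, so `re e^(2πit) > 0`. The ray meets
`-N ∋ -b`: `ψ w₂ ∈ -N`, `w₂ = r₂ e^(2πit)`, `ψ (-w₂) = -ψ w₂ ∈ N` (`Bot.odd`), so `re (-w₂) > 0`,
contradiction. -/
def Stmt_GHF : Prop := ∀ c : ℂ, (0 : ℂ) ∈ K c → interior (K c) = ∅ →
  ∀ H : Set ℂ, IsCompact H → IsPreconnected H → H ⊆ K c → ¬ K c ⊆ H → c ∈ H → (0 : ℂ) ∈ H →
    (¬ f c '' H ⊆ H ∨ f c '' H = H) → ∃ T, HH.Half c T

/-- **EQH**. Proof. `HH.filledJulia_eq`, `HH.interior_empty`, `HH.bo_of_bottcher`. `→`: `HH.thmB`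
`1 → 4`: `julia c` is irreducible between `c` and `β`, so `HH.Irr c c β` (as `hirr` in the proof of
`HH.thmB`), and `HH.irr_forces` excludes a `Half` (`c ≠ -2`). `←`: `HH.exists_dense_ray` (as `key` in
the proof of `HH.thmB`). -/
def Stmt_EQH : Prop := ∀ c : ℂ, c ≠ -2 → (0 : ℂ) ∈ HH.filledJulia c →
  HH.julia c = HH.filledJulia c → ∀ φ : ℂ → ℂ, HH.IsBottcher c φ →
    ((∃ t : ℝ, HH.principal φ t = HH.julia c) ↔ ¬ ∃ T, HH.Half c T)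

/-- **HAC**. Proof. A `Half` `T` contains `0` (`HH.Half.zero`) and `HH.Half.neg` is one too. `x ∈ T`
or `-x ∈ T` (`cov`): take `T` or `nH T`. `f '' T' = K c ⊄ T'`: every `z ∈ K c` is `f u`, `u ∈ K c`
(`HH.f_surj`, `HH.f_mem_K`), `u ∈ T'` or `-u ∈ T'`, `f (-u) = f u`. -/
def Stmt_HAC : Prop := ∀ c : ℂ, (0 : ℂ) ∈ K c → ∀ T, HH.Half c T → ∀ x ∈ K c,
  ∃ T', HH.Half c T' ∧ (0 : ℂ) ∈ T' ∧ x ∈ T' ∧ f c '' T' = K c

/-- **REC** (Theorem G for recurrent `0`). Proof. If `f '' H ⊄ H`: GHF. Let `f '' H ⊆ H`.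
`L = ⋂ k, (f^k) '' H`: antitone compact preconnected sets, so `L` is compact, preconnected
(`HH.conn_iInter`), in `H`. `f '' L = L`: `⊆` clear; if `z ∈ L` then for every `k` the compact set
`f⁻¹ {z} ∩ (f^k '' H)` is not empty (`z ∈ f^(k+1) '' H`), they decrease, so they have a common point.
`0 ∈ L`: fix `k`. `f^n 0 ∈ f^k '' H` for `n ≥ k` (`f^n 0 = f^k (f^(n-k) 0)`, `f^(n-k) 0 ∈ H`). If
`0 = f^n 0` for some `n ≥ 1` then `0 = f^(nk) 0 ∈ f^k '' H`, `n k ≥ k`. Otherwise `0` is in the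
closure of `{f^n 0 : n ≥ k}`: `{f^n 0 : n ≥ 1}` is the union of it and a finite set that does not
contain `0` (`closure_union`, finite sets are closed); `f^k '' H` is closed. So `0 ∈ L`,
`c = f 0 ∈ L`, `L ⊆ H ⊊ K c`; GHF for `L`. -/
def Stmt_REC : Prop := ∀ c : ℂ, (0 : ℂ) ∈ K c → interior (K c) = ∅ →
  (0 : ℂ) ∈ closure {z | ∃ n : ℕ, 1 ≤ n ∧ (f c)^[n] 0 = z} →
  ∀ H : Set ℂ, IsCompact H → IsPreconnected H → H ⊆ K c → ¬ K c ⊆ H → c ∈ H → (0 : ℂ) ∈ H →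
    ∃ T, HH.Half c T

/-- **DIS**. Proof. `H ∪ f '' H` is compact, preconnected (they meet), in `K c`, contains `0` and
`c = f 0`. If it is not all of `K c`: REC. Otherwise `K c ⊆ H ∪ f '' H`. If `K c ⊆ f '' H` then `H` is
a `Half` (`z ∈ K c`: `f z = f h`, `z = h` or `z = -h`). Else `HH.decomp_half` with `A = H`,
`B = f '' H`. -/
def Stmt_DIS : Prop := ∀ c : ℂ, (0 : ℂ) ∈ K c → interior (K c) = ∅ →
  (0 : ℂ) ∈ closure {z | ∃ n : ℕ, 1 ≤ n ∧ (f c)^[n] 0 = z} →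
  ∀ H : Set ℂ, IsCompact H → IsPreconnected H → H ⊆ K c → ¬ K c ⊆ H → (0 : ℂ) ∈ H →
    (H ∩ f c '' H).Nonempty → ∃ T, HH.Half c T

/-- **HLM**. Limits of invariant continua: `cs n → c`, `Hs n` compact preconnected, `0 ∈ Hs n`,
`f (cs n) '' Hs n = Hs n`, all off the open set `U`. Then there is such an `H` for `c`.
Proof. All points of `Hs n` have bounded orbit, so `‖z‖ ≤ 2 + ‖cs n‖ ≤ R` for `z ∈ Hs n`
(`(R4C.stmt_ELM _).2.2.2.1`, `R4C.rad`; `cs` is bounded). Let `W : Ultrafilter ℕ`, `↑W ≤ atTop`, and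
`H = {z | ∀ ε > 0, ∀ᶠ n in W, ∃ y ∈ Hs n, ‖y - z‖ < ε}`. (a) If `y n ∈ Hs n` for `W`-almost all `n`
then `y` has a limit along `W` (compact ball), which is in `H`. (b) Every `z ∈ H` is the limit along
`W` of some `y n ∈ Hs n` (choose `y n` nearest to `z`, `IsCompact.exists_infDist_eq_dist`). `H` is
closed, in `closedBall 0 R`, contains `0`, disjoint from `U` (`U` is open, `Hs n` is off `U`).
`f c '' H = H`: limits of `f (cs n) (y n)`; for `⊇` choose `x n ∈ Hs n` with `f (cs n) (x n) = y n`.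
Preconnected: else `H` is the union of two disjoint nonempty compact sets with disjoint open
neighborhoods `U₁, U₂` (`SeparatedNhds.of_isCompact_isCompact`); for `W`-almost all `n` `Hs n` meets
both (by (b)), so (preconnected) there is `y n ∈ Hs n` off `U₁ ∪ U₂`; its limit is in `H`, off
`U₁ ∪ U₂`. -/
def Stmt_HLM : Prop := ∀ (c : ℂ) (cs : ℕ → ℂ) (Hs : ℕ → Set ℂ) (U : Set ℂ),
  Tendsto cs atTop (𝓝 c) → (∀ n, IsCompact (Hs n)) → (∀ n, IsPreconnected (Hs n)) →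
  (∀ n, (0 : ℂ) ∈ Hs n) → (∀ n, f (cs n) '' Hs n = Hs n) → IsOpen U → (∀ n, Disjoint (Hs n) U) →
    ∃ H : Set ℂ, IsCompact H ∧ IsPreconnected H ∧ (0 : ℂ) ∈ H ∧ f c '' H = H ∧ Disjoint H U

end ICP
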