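import Pool.Agent.Work.MP_065151_ic.Interface
import Pool.Agent.Work.MP_065151_ic.B_HLM

/-!
# Limits of continua along sequences of parameters
-/

set_option autoImplicit false

open Topology Metric Filter Set

namespace ICP

open R4C (f K Bot)

/-- The limit along an ultrafilter. -/
def LimS (W : Ultrafilter ℕ) (Hs : ℕ → Set ℂ) : Set ℂ :=
  {z | ∃ y : ℕ → ℂ, (∀ n, y n ∈ Hs n) ∧ Tendsto y W (𝓝 z)}

lemma LimS_compact (W : Ultrafilter ℕ) {Hs : ℕ → Set ℂ} {R : ℝ} (hcpt : ∀ n, IsCompact (Hs n))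
    (hzero : ∀ n, (0 : ℂ) ∈ Hs n) (hR : ∀ n, ∀ z ∈ Hs n, ‖z‖ ≤ R) : IsCompact (LimS W Hs) := by
  have hsub : LimS W Hs ⊆ closedBall 0 R := by
    rintro z ⟨y, hy, hz⟩
    refine isClosed_closedBall.mem_of_tendsto hz (Eventually.of_forall fun n => ?_)
    simpa using hR n _ (hy n)
  have hclosed : IsClosed (LimS W Hs) := by
    rw [← closure_subset_iff_isClosed]
    intro z hz
    have h1 : ∀ n, ∃ y ∈ Hs n, infDist z (Hs n) = dist z y := fun n =>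
      (hcpt n).exists_infDist_eq_dist ⟨0, hzero n⟩ z
    choose y hy hyd using h1
    refine ⟨y, hy, ?_⟩
    rw [Metric.tendsto_nhds]
    intro ε hε
    obtain ⟨z', ⟨y', hy', hz'⟩, hzz⟩ := Metric.mem_closure_iff.1 hz (ε / 2) (by linarith)
    filter_upwards [Metric.tendsto_nhds.1 hz' (ε / 2) (by linarith)] with n hn
    have h2 : dist z (y n) ≤ dist z (y' n) := by
      rw [← hyd n]
      exact infDist_le_dist_of_mem (hy' n)
    rw [dist_comm]
    have h3 : dist z (y' n) ≤ dist z z' + dist z' (y' n) := dist_triangle _ _ _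
    rw [dist_comm z' (y' n)] at h3
    linarith
  exact (isCompact_closedBall _ _).of_isClosed_subset hclosed hsub

lemma LimS_conn (W : Ultrafilter ℕ) {Hs : ℕ → Set ℂ} {R : ℝ} (hcpt : ∀ n, IsCompact (Hs n))
    (hpre : ∀ n, IsPreconnected (Hs n)) (hzero : ∀ n, (0 : ℂ) ∈ Hs n)
    (hR : ∀ n, ∀ z ∈ Hs n, ‖z‖ ≤ R) : IsPreconnected (LimS W Hs) := by
  classical
  have hcompact := LimS_compact W hcpt hzero hR
  have hlim : ∀ y : ℕ → ℂ, (∀ n, y n ∈ Hs n) → ∃ z ∈ LimS W Hs, Tendsto y W (𝓝 z) := by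
    intro y hy
    obtain ⟨z, hz⟩ := HLM_lim W (fun n => hR n _ (hy n))
    exact ⟨z, ⟨y, hy, hz⟩, hz⟩
  rw [isPreconnected_closed_iff]
  intro t t' ht ht' hsu h1 h2
  by_contra hne
  have hA : IsCompact (LimS W Hs ∩ t) := hcompact.inter_right ht
  have hB' : IsCompact (LimS W Hs ∩ t') := hcompact.inter_right ht'
  have hd : Disjoint (LimS W Hs ∩ t) (LimS W Hs ∩ t') := by
    rw [Set.disjoint_left]
    rintro z ⟨hzH, hzt⟩ ⟨-, hzt'⟩
    exact hne ⟨z, hzH, hzt, hzt'⟩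
  obtain ⟨U₁, U₂, ho1, ho2, hs1, hs2, hdd⟩ := SeparatedNhds.of_isCompact_isCompact hA hB' hd
  obtain ⟨a, haH, hat⟩ := h1
  obtain ⟨b, hbH, hbt⟩ := h2
  obtain ⟨ya, hya, hla⟩ := haH
  obtain ⟨yb, hyb, hlb⟩ := hbH
  have e1 : ∀ᶠ n in (W : Filter ℕ), ya n ∈ U₁ :=
    hla.eventually (ho1.mem_nhds (hs1 ⟨⟨ya, hya, hla⟩, hat⟩))
  have e2 : ∀ᶠ n in (W : Filter ℕ), yb n ∈ U₂ :=
    hlb.eventually (ho2.mem_nhds (hs2 ⟨⟨yb, hyb, hlb⟩, hbt⟩))
  have e3 : ∀ᶠ n in (W : Filter ℕ), ∃ y ∈ Hs n, y ∉ U₁ ∪ U₂ := by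
    filter_upwards [e1, e2] with n hn1 hn2
    by_contra hcon
    push Not at hcon
    obtain ⟨x, -, hx1, hx2⟩ := hpre n U₁ U₂ ho1 ho2 hcon ⟨ya n, hya n, hn1⟩
      ⟨yb n, hyb n, hn2⟩
    exact Set.disjoint_left.1 hdd hx1 hx2
  set y : ℕ → ℂ := fun n => if h : ∃ y ∈ Hs n, y ∉ U₁ ∪ U₂ then h.choose else 0 with hy
  have hyH : ∀ n, y n ∈ Hs n := by
    intro n
    by_cases h : ∃ y ∈ Hs n, y ∉ U₁ ∪ U₂
    · simp only [hy, dif_pos h]
      exact h.choose_spec.1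
    · simp only [hy, dif_neg h]
      exact hzero n
  obtain ⟨w, hwH, hw⟩ := hlim y hyH
  have hwU : w ∈ U₁ ∪ U₂ := by
    rcases hsu hwH with h | h
    · exact Or.inl (hs1 ⟨hwH, h⟩)
    · exact Or.inr (hs2 ⟨hwH, h⟩)
  have e4 : ∀ᶠ n in (W : Filter ℕ), y n ∈ U₁ ∪ U₂ :=
    hw.eventually ((ho1.union ho2).mem_nhds hwU)
  obtain ⟨n, hn3, hn4⟩ := (e3.and e4).exists
  have h5 : y n ∉ U₁ ∪ U₂ := by
    simp only [hy, dif_pos hn3]
    exact hn3.choose_spec.2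
  exact h5 hn4

/-- Upper semicontinuity of the filled Julia sets. -/
lemma usc' {F : Filter ℕ} [F.NeBot] {c : ℂ} {cs : ℕ → ℂ} (hcs : Tendsto cs F (𝓝 c)) {y : ℕ → ℂ}
    {z : ℂ} (hy : ∀ n, y n ∈ K (cs n)) (hz : Tendsto y F (𝓝 z)) : z ∈ K c := by
  refine ⟨R4C.rad c, fun m => ?_⟩
  have h1 : ∀ m, Tendsto (fun n => (f (cs n))^[m] (y n)) F (𝓝 ((f c)^[m] z)) := by
    intro m
    induction m with
    | zero => exact hz
    | succ m ih =>
      simp only [Function.iterate_succ_apply']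
      exact (ih.pow 2).add hcs
  have h2 : Tendsto (fun n => R4C.rad (cs n)) F (𝓝 (R4C.rad c)) := by
    unfold R4C.rad
    exact tendsto_const_nhds.add hcs.norm
  refine le_of_tendsto_of_tendsto' (h1 m).norm h2 fun n => ?_
  have h3 := hy n
  rw [(R4C.stmt_ELM (cs n)).2.2.2.1] at h3
  exact h3 m

/-- A uniform bound for the filled Julia sets of a convergent sequence of parameters. -/
lemma K_bdd {c : ℂ} {cs : ℕ → ℂ} (hcs : Tendsto cs atTop (𝓝 c)) :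
    ∃ R : ℝ, ∀ n, ∀ z ∈ K (cs n), ‖z‖ ≤ R := by
  obtain ⟨B, hB⟩ := (Metric.isBounded_range_of_tendsto cs hcs).exists_norm_le
  refine ⟨2 + B, fun n z hz => ?_⟩
  rw [(R4C.stmt_ELM (cs n)).2.2.2.1] at hz
  have h2 := hz 0
  simp only [Function.iterate_zero, id, R4C.rad] at h2
  linarith [hB (cs n) (mem_range_self n)]

/-- Limits of continua that join the critical point and the critical value. -/
theorem HL2 {c : ℂ} {cs : ℕ → ℂ} {Hs : ℕ → Set ℂ} {U : Set ℂ} (hcs : Tendsto cs atTop (𝓝 c))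
    (hcpt : ∀ n, IsCompact (Hs n)) (hpre : ∀ n, IsPreconnected (Hs n))
    (hsub : ∀ n, Hs n ⊆ K (cs n)) (hzero : ∀ n, (0 : ℂ) ∈ Hs n) (hc : ∀ n, cs n ∈ Hs n)
    (hU : IsOpen U) (hdis : ∀ n, Disjoint (Hs n) U) :
    ∃ H : Set ℂ, IsCompact H ∧ IsPreconnected H ∧ H ⊆ K c ∧ (0 : ℂ) ∈ H ∧ c ∈ H ∧
      Disjoint H U := by
  obtain ⟨R, hR⟩ := K_bdd hcs
  set W : Ultrafilter ℕ := Ultrafilter.of atTop with hW
  have hWle : (W : Filter ℕ) ≤ atTop := Ultrafilter.of_le atTop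
  have hcW : Tendsto cs W (𝓝 c) := hcs.mono_left hWle
  have hR' : ∀ n, ∀ z ∈ Hs n, ‖z‖ ≤ R := fun n z hz => hR n z (hsub n hz)
  refine ⟨LimS W Hs, LimS_compact W hcpt hzero hR', LimS_conn W hcpt hpre hzero hR', ?_,
    ⟨fun _ => 0, hzero, tendsto_const_nhds⟩, ⟨cs, hc, hcW⟩, ?_⟩
  · rintro z ⟨y, hy, hz⟩
    exact usc' hcW (fun n => hsub n (hy n)) hz
  · rw [Set.disjoint_left]
    rintro z ⟨y, hy, hz⟩ hzU
    have e1 : ∀ᶠ n in (W : Filter ℕ), y n ∈ U := hz.eventually (hU.mem_nhds hzU)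
    obtain ⟨n, hn⟩ := e1.exists
    exact Set.disjoint_left.1 (hdis n) (hy n) hn

/-- Hausdorff convergence to the filled Julia set from the limit property of open sets. -/
theorem hconv {c : ℂ} {cs : ℕ → ℂ} {Hs : ℕ → Set ℂ} (hcs : Tendsto cs atTop (𝓝 c))
    (hsub : ∀ n, Hs n ⊆ K (cs n))
    (key1 : ∀ U : Set ℂ, IsOpen U → (U ∩ K c).Nonempty → ∀ᶠ n in atTop, (Hs n ∩ U).Nonempty) :
    Tendsto (fun n => hausdorffDist (Hs n) (K c)) atTop (𝓝 0) := by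
  have hKc : IsCompact (K c) := (R4C.stmt_ELM c).2.2.2.2.1
  rw [Metric.tendsto_atTop]
  intro ε hε
  have keyA : ∀ᶠ n in atTop, ∀ x ∈ K c, ∃ y ∈ Hs n, dist x y ≤ ε / 2 := by
    obtain ⟨t, ht1, ht2⟩ := hKc.elim_nhds_subcover (fun x => ball x (ε / 4))
      (fun x _ => ball_mem_nhds x (by linarith))
    have h1 : ∀ᶠ n in atTop, ∀ x ∈ t, (Hs n ∩ ball x (ε / 4)).Nonempty := by
      rw [Filter.eventually_all_finset]
      intro x hx
      exact key1 _ isOpen_ball ⟨x, mem_ball_self (by linarith), ht1 x hx⟩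
    filter_upwards [h1] with n hn x hx
    obtain ⟨x', hx', hxx⟩ := Set.mem_iUnion₂.1 (ht2 hx)
    obtain ⟨y, hy, hy2⟩ := hn x' hx'
    refine ⟨y, hy, ?_⟩
    rw [mem_ball] at hxx hy2
    have := dist_triangle_right x y x'
    linarith
  have keyB : ∀ᶠ n in atTop, ∀ x ∈ Hs n, ∃ y ∈ K c, dist x y ≤ ε / 2 := by
    by_contra hcon
    rw [Filter.not_eventually] at hcon
    obtain ⟨σ, hσ, hσ2⟩ := Filter.extraction_of_frequently_atTop hcon
    push Not at hσ2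
    choose x hx hx2 using hσ2
    obtain ⟨R, hR⟩ := K_bdd hcs
    have hxb : ∀ n, x n ∈ closedBall (0 : ℂ) R := by
      intro n
      rw [mem_closedBall_zero_iff]
      exact hR _ _ (hsub _ (hx n))
    obtain ⟨z, -, τ, hτ, hlim⟩ := (isCompact_closedBall (0 : ℂ) R).tendsto_subseq hxb
    have hzK : z ∈ K c := usc' (F := atTop) (cs := fun n => cs (σ (τ n)))
      ((hcs.comp hσ.tendsto_atTop).comp hτ.tendsto_atTop) (fun n => hsub _ (hx (τ n))) hlim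
    obtain ⟨N, hN⟩ := Metric.tendsto_atTop.1 hlim (ε / 2) (by linarith)
    have h1 := hN N le_rfl
    have h2 := hx2 (τ N) z hzK
    simp only [Function.comp] at h1
    linarith
  obtain ⟨N, hN⟩ := eventually_atTop.1 (keyA.and keyB)
  refine ⟨N, fun n hn => ?_⟩
  obtain ⟨hA, hB⟩ := hN n hn
  rw [Real.dist_eq, sub_zero, abs_of_nonneg hausdorffDist_nonneg]
  refine lt_of_le_of_lt (hausdorffDist_le_of_mem_dist (by linarith : (0 : ℝ) ≤ ε / 2) hB ?_)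
    (by linarith)
  exact hA

/-- A closed nonempty bounded set at Hausdorff distance zero. -/
lemma eq_of_hd {S T : Set ℂ} (hS : IsCompact S) (hT : IsCompact T) (hSn : S.Nonempty)
    (hTn : T.Nonempty) (h : hausdorffDist S T = 0) : S = T :=
  (hS.isClosed.hausdorffDist_zero_iff_eq hT.isClosed
    (hausdorffEDist_ne_top_of_nonempty_of_bounded hSn hTn hS.isBounded hT.isBounded)).1 h

end ICP
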