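import Pool.Agent.Work.MP_065151_ic.Lim

/-!
# From the blocks to the theorems
-/

set_option autoImplicit false

open Topology Metric Filter Set

namespace ICP

open R4C (f K Bot)
open HH (quad filledJulia julia IsBottcher principal IrreducibleBetween Half nH)

lemma proper_iff {c : ℂ} (hJK : julia c = K c) {H : Set ℂ} (h1 : H ⊆ julia c)
    (h2 : H ≠ julia c) : ¬ K c ⊆ H := fun h3 => h2 (Set.Subset.antisymm h1 (hJK ▸ h3))

lemma half_ne {c : ℂ} (hJK : julia c = K c) {T : Set ℂ} (hT : Half c T) : T ≠ julia c := by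
  intro h
  apply hT.ne
  rw [h, hJK]

/-- Part A. -/
theorem partA (hGHF : Stmt_GHF) (hEQH : Stmt_EQH) (hHAC : Stmt_HAC) {c : ℂ} (hc : c ≠ -2)
    (h0 : (0 : ℂ) ∈ filledJulia c) (hJ : julia c = filledJulia c) {φ : ℂ → ℂ}
    (hφ : IsBottcher c φ) :
    (∃ t : ℝ, principal φ t = julia c) ↔ ∀ H : Set ℂ, H ⊆ julia c → H ≠ julia c →
      IsCompact H → IsConnected H → (0 : ℂ) ∈ H → c ∈ H → quad c '' H ⊂ H := by
  have hi := HH.interior_empty hJ
  have hJK : julia c = K c := by rw [hJ, HH.filledJulia_eq]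
  have h0K : (0 : ℂ) ∈ K c := by rwa [HH.filledJulia_eq] at h0
  rw [hEQH c hc h0 hJ φ hφ]
  constructor
  · intro hno H h1 h2 h3 h4 h5 h6
    by_contra hcon
    refine hno (hGHF c h0K hi H h3 h4.isPreconnected (hJK ▸ h1) (proper_iff hJK h1 h2) h6 h5 ?_)
    by_cases hsub : f c '' H ⊆ H
    · right
      by_contra hne
      exact hcon ⟨hsub, fun h7 => hne (Set.Subset.antisymm hsub h7)⟩
    · exact Or.inl hsub
  · rintro hall ⟨T, hT⟩
    obtain ⟨T', h1, h2, h3, h4⟩ := hHAC c h0K T hT c (HH.c_mem_K h0K)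
    have h5 := hall T' (hJK ▸ h1.sub) (half_ne hJK h1) h1.cpt ⟨⟨0, h2⟩, h1.con⟩ h2 h3
    apply h1.ne
    rw [← h4]
    exact h5.1

/-- Part B. -/
theorem partB (hREC : Stmt_REC) (hDIS : Stmt_DIS) (hEQH : Stmt_EQH) (hHAC : Stmt_HAC) {c : ℂ}
    (hc : c ≠ -2) (h0 : (0 : ℂ) ∈ filledJulia c) (hJ : julia c = filledJulia c) {φ : ℂ → ℂ}
    (hφ : IsBottcher c φ)
    (hr : (0 : ℂ) ∈ closure {z | ∃ n : ℕ, 1 ≤ n ∧ (quad c)^[n] 0 = z}) :
    List.TFAE [∃ t : ℝ, principal φ t = julia c,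
      IrreducibleBetween (julia c) 0 c,
      ∃ p : ℂ, quad c p = p ∧ IrreducibleBetween (julia c) 0 p,
      ∀ p : ℂ, quad c p = p → IrreducibleBetween (julia c) 0 p,
      ∀ p : ℂ, quad c p = p → IrreducibleBetween (julia c) c p,
      ∀ H : Set ℂ, H ⊆ julia c → H ≠ julia c → IsCompact H → IsConnected H → (0 : ℂ) ∈ H →
        Disjoint H (quad c '' H),
      ∀ (cs : ℕ → ℂ) (Hs : ℕ → Set ℂ), Tendsto cs atTop (𝓝 c) → (∀ n, IsCompact (Hs n)) →
        (∀ n, IsConnected (Hs n)) → (∀ n, Hs n ⊆ filledJulia (cs n)) → (∀ n, (0 : ℂ) ∈ Hs n) →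
        (∀ n, cs n ∈ Hs n) → Tendsto (fun n => hausdorffDist (Hs n) (julia c)) atTop (𝓝 0)] := by
  have hi := HH.interior_empty hJ
  have hJK : julia c = K c := by rw [hJ, HH.filledJulia_eq]
  have h0K : (0 : ℂ) ∈ K c := by rwa [HH.filledJulia_eq] at h0
  have hcK := HH.c_mem_K h0K
  have hfix : ∃ p, f c p = p := by
    obtain ⟨p, hp, -⟩ := HH.land (HH.bo_of_bottcher hφ)
    exact ⟨p, hp⟩
  -- a half excludes irreducibility between `0` and any point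
  have hirr0 : ∀ x ∈ K c, IrreducibleBetween (julia c) 0 x → ¬ ∃ T, Half c T := by
    rintro x hx ⟨-, -, h1⟩ ⟨T, hT⟩
    obtain ⟨T', h2, h3, h4, -⟩ := hHAC c h0K T hT x hx
    exact half_ne hJK h2 (h1 T' (hJK ▸ h2.sub) h2.cpt ⟨⟨0, h3⟩, h2.con⟩ h3 h4)
  have hE := hEQH c hc h0 hJ φ hφ
  tfae_have 1 → 6 := by
    intro h1 H h2 h3 h4 h5 h6
    by_contra hcon
    rw [Set.not_disjoint_iff_nonempty_inter] at hcon
    exact hE.1 h1 (hDIS c h0K hi hr H h4 h5.isPreconnected (hJK ▸ h2) (proper_iff hJK h2 h3) h6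
      hcon)
  tfae_have 6 → 4 := by
    intro h1 p hp
    refine ⟨hJK ▸ h0K, hJK ▸ HH.fixed_mem_K hp, fun S h2 h3 h4 h5 h6 => ?_⟩
    by_contra hne
    exact Set.disjoint_left.1 (h1 S h2 hne h3 h4 h5) h6 ⟨p, h6, hp⟩
  tfae_have 6 → 2 := by
    intro h1
    refine ⟨hJK ▸ h0K, hJK ▸ hcK, fun S h2 h3 h4 h5 h6 => ?_⟩
    by_contra hne
    exact Set.disjoint_left.1 (h1 S h2 hne h3 h4 h5) h6 ⟨0, h5, HH.f_zero c⟩
  tfae_have 4 → 3 := by
    intro h1
    obtain ⟨p, hp⟩ := hfix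
    exact ⟨p, hp, h1 p hp⟩
  tfae_have 3 → 1 := by
    rintro ⟨p, hp, h1⟩
    exact hE.2 (hirr0 p (HH.fixed_mem_K hp) h1)
  tfae_have 2 → 1 := by
    intro h1
    exact hE.2 (hirr0 c hcK h1)
  tfae_have 4 → 5 := by
    intro h1 p hp
    refine ⟨hJK ▸ hcK, hJK ▸ HH.fixed_mem_K hp, fun S h2 h3 h4 h5 h6 => ?_⟩
    by_contra hne
    have e1 := (h1 p hp).2.2 (f c ⁻¹' S) (by
      rw [hJK]
      intro z hz
      exact (HH.f_mem_K c z).1 (hJK ▸ h2 hz)) (HH.preimage_compact c h3)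
      ⟨⟨0, by rw [Set.mem_preimage, HH.f_zero]; exact h5⟩,
        HH.preimage_conn c h3 h4.isPreconnected h5⟩
      (by rw [Set.mem_preimage, HH.f_zero]; exact h5)
      (by rw [Set.mem_preimage, (show f c p = p from hp)]; exact h6)
    apply HH.not_sub_pre (proper_iff hJK h2 hne)
    rw [e1, hJK]
  tfae_have 5 → 1 := by
    intro h1
    obtain ⟨p, hp⟩ := hfix
    obtain ⟨-, -, h2⟩ := h1 p hp
    refine hE.2 ?_
    rintro ⟨T, hT⟩
    refine hc (HH.irr_forces h0K hi (x := c) (y := p) ⟨hcK, HH.fixed_mem_K hp, ?_⟩ hT)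
    intro S h3 h4 h5 h6 h7
    rw [h2 S (hJK ▸ h5) h3 ⟨⟨c, h6⟩, h4⟩ h6 h7, hJK]
  tfae_have 1 → 7 := by
    intro h1 cs Hs hcs hH hHc hHK hH0 hHcs
    have hno := hE.1 h1
    have hsub : ∀ n, Hs n ⊆ K (cs n) := fun n => HH.filledJulia_eq (cs n) ▸ hHK n
    rw [hJK]
    refine hconv hcs hsub fun U hU hUK => ?_
    by_contra hcon
    rw [Filter.not_eventually] at hcon
    obtain ⟨σ, hσ, hσ2⟩ := Filter.extraction_of_frequently_atTop hcon
    obtain ⟨H, g1, g2, g3, g4, g5, g6⟩ := HL2 (hcs.comp hσ.tendsto_atTop)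
      (Hs := fun n => Hs (σ n)) (U := U) (fun n => hH _) (fun n => (hHc _).isPreconnected)
      (fun n => hsub _) (fun n => hH0 _) (fun n => hHcs _) hU (fun n => by
        rw [Set.disjoint_iff_inter_eq_empty]
        exact Set.not_nonempty_iff_eq_empty.1 (hσ2 n))
    refine hno (hREC c h0K hi hr H g1 g2 g3 (fun h2 => ?_) g5 g4)
    obtain ⟨u, hu1, hu2⟩ := hUK
    exact Set.disjoint_left.1 g6 (h2 hu2) hu1
  tfae_have 7 → 2 := by
    intro h1
    refine ⟨hJK ▸ h0K, hJK ▸ hcK, fun S h2 h3 h4 h5 h6 => ?_⟩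
    have h7 := h1 (fun _ => c) (fun _ => S) tendsto_const_nhds (fun _ => h3) (fun _ => h4)
      (fun _ => hJ ▸ h2) (fun _ => h5) (fun _ => h6)
    have h8 : hausdorffDist S (julia c) = 0 := tendsto_nhds_unique tendsto_const_nhds h7
    refine eq_of_hd h3 ?_ ⟨0, h5⟩ ⟨0, h2 h5⟩ h8
    rw [hJK]
    exact (R4C.stmt_ELM c).2.2.2.2.1
  tfae_finish

end ICP
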